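import Mathlib

/-!
# Products of sparse numbers have no carries (helper46)

`val L S = ∑ i ∈ S, 2 ^ (L i)`. If fewer than `2 ^ L` pairs contribute to every digit, the bit
`L k` of `val L S * val L T` is the parity of the number `conv S T k` of `i ∈ S` with `k - i ∈ T`.
Cyclic form `testBit_cyclic`: `T` is the periodic extension of a subset of `ZMod m` to `[0, 2m)`.
-/

set_option autoImplicit false

namespace Pool.Agent.HazConv

open Finset

/-- the number whose bits are at the positions `L i`, `i ∈ S` -/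
def val (L : ℕ) (S : Finset ℕ) : ℕ := ∑ i ∈ S, 2 ^ (L * i)

/-- number of `i ∈ S` with `k - i ∈ T` -/
def conv (S T : Finset ℕ) (k : ℕ) : ℕ := (S.filter fun i => i ≤ k ∧ k - i ∈ T).card

theorem conv_le (S T : Finset ℕ) (k : ℕ) : conv S T k ≤ S.card := card_filter_le _ _

theorem val_mul_val (L : ℕ) (S T : Finset ℕ) (K : ℕ) (hK : ∀ i ∈ S, ∀ j ∈ T, i + j < K) :
    val L S * val L T = ∑ k ∈ range K, conv S T k * 2 ^ (L * k) := by
  have h1 : val L S * val L T = ∑ q ∈ S ×ˢ T, 2 ^ (L * (q.1 + q.2)) := by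
    rw [val, val, sum_mul_sum, sum_product]
    refine sum_congr rfl fun i _ => sum_congr rfl fun j _ => ?_
    rw [← pow_add, ← mul_add]
  rw [h1, ← sum_fiberwise_of_maps_to (g := fun q : ℕ × ℕ => q.1 + q.2) (t := range K)]
  · refine sum_congr rfl fun k _ => ?_
    have h2 : ∑ q ∈ (S ×ˢ T) with q.1 + q.2 = k, 2 ^ (L * (q.1 + q.2)) =
        ∑ q ∈ (S ×ˢ T) with q.1 + q.2 = k, 2 ^ (L * k) :=
      sum_congr rfl fun q hq => by rw [(mem_filter.1 hq).2]
    rw [h2, sum_const, smul_eq_mul]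
    congr 1
    rw [conv]
    refine card_nbij' (fun q => q.1) (fun i => (i, k - i)) ?_ ?_ ?_ ?_
    · intro q hq
      obtain ⟨hq1, hq2⟩ := mem_filter.1 (mem_coe.1 hq)
      obtain ⟨hq3, hq4⟩ := mem_product.1 hq1
      have h3 : q.1 ≤ k := hq2 ▸ Nat.le_add_right _ _
      have h4 : k - q.1 = q.2 := by omega
      refine mem_coe.2 (mem_filter.2 ⟨hq3, h3, ?_⟩)
      change k - q.1 ∈ T
      rw [h4]
      exact hq4
    · intro i hi
      obtain ⟨hi1, hi2, hi3⟩ := mem_filter.1 (mem_coe.1 hi)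
      refine mem_coe.2 (mem_filter.2 ⟨mem_product.2 ⟨hi1, hi3⟩, ?_⟩)
      simp only
      omega
    · rintro ⟨i, j⟩ hq
      obtain ⟨hq1, hq2⟩ := mem_filter.1 (mem_coe.1 hq)
      simp only at hq2 ⊢
      have : k - i = j := by omega
      rw [this]
    · intro i _
      rfl
  · intro q hq
    obtain ⟨hq3, hq4⟩ := mem_product.1 hq
    exact mem_range.2 (hK _ hq3 _ hq4)

/-- the low digits -/
theorem sum_lt_pow (L : ℕ) (c : ℕ → ℕ) (hc : ∀ k, c k < 2 ^ L) :
    ∀ K : ℕ, ∑ k ∈ range K, c k * 2 ^ (L * k) < 2 ^ (L * K) := by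
  intro K
  induction K with
  | zero => simp
  | succ K ih =>
    rw [sum_range_succ]
    have h1 : c K * 2 ^ (L * K) + 2 ^ (L * K) ≤ 2 ^ (L * (K + 1)) := by
      have h2 : (c K + 1) * 2 ^ (L * K) ≤ 2 ^ L * 2 ^ (L * K) :=
        Nat.mul_le_mul_right _ (hc K)
      rw [mul_add, mul_one, pow_add, mul_comm (2 ^ (L * K))]
      linarith
    omega

theorem testBit_sum (L : ℕ) (hL : 1 ≤ L) (c : ℕ → ℕ) (hc : ∀ k, c k < 2 ^ L) (K k : ℕ)
    (hk : k < K) :
    Nat.testBit (∑ k ∈ range K, c k * 2 ^ (L * k)) (L * k) = decide (c k % 2 = 1) := by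
  obtain ⟨r, rfl⟩ : ∃ r, K = k + (r + 1) := ⟨K - k - 1, by omega⟩
  rw [sum_range_add (fun k => c k * 2 ^ (L * k)) k (r + 1)]
  have h1 : ∑ x ∈ range (r + 1), c (k + x) * 2 ^ (L * (k + x)) =
      2 ^ (L * k) * (c k + 2 * ∑ x ∈ range r, c (k + (x + 1)) * 2 ^ (L * (x + 1) - 1)) := by
    have e : 2 ^ (L * k) * (c k + 2 * ∑ x ∈ range r, c (k + (x + 1)) * 2 ^ (L * (x + 1) - 1)) =
        2 ^ (L * k) * c k +
          ∑ x ∈ range r, 2 ^ (L * k) * (2 * (c (k + (x + 1)) * 2 ^ (L * (x + 1) - 1))) := by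
      rw [mul_add, mul_sum, mul_sum]
    rw [sum_range_succ', e, add_comm]
    congr 1
    · rw [add_zero, mul_comm]
    · refine sum_congr rfl fun x _ => ?_
      have h2 : L * (k + (x + 1)) = L * k + (L * (x + 1) - 1 + 1) := by
        have h3 : 1 ≤ L * (x + 1) := Nat.mul_pos (by omega) (by omega)
        rw [Nat.sub_add_cancel h3]
        ring
      rw [h2, pow_add, pow_add]
      ring
  rw [h1, Nat.testBit_eq_decide_div_mod_eq]
  have h4 := sum_lt_pow L c hc k
  rw [Nat.add_mul_div_left _ _ (by positivity), Nat.div_eq_of_lt h4, zero_add,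
    Nat.add_mul_mod_self_left]

theorem testBit_mul (L : ℕ) (hL : 1 ≤ L) (S T : Finset ℕ) (hS : S.card < 2 ^ L) (k : ℕ) :
    Nat.testBit (val L S * val L T) (L * k) = decide (conv S T k % 2 = 1) := by
  set K := S.sup id + T.sup id + k + 1 with hK
  rw [val_mul_val L S T K ?_]
  · exact testBit_sum L hL _ (fun k => (conv_le S T k).trans_lt hS) K k (by omega)
  · intro i hi j hj
    have h1 : i ≤ S.sup id := le_sup (f := id) hi
    have h2 : j ≤ T.sup id := le_sup (f := id) hj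
    omega

/-- periodic extension of a subset of `ZMod m` to `[0, 2m)` -/
def per (m : ℕ) (T : Finset (ZMod m)) : Finset ℕ :=
  (range (2 * m)).filter fun j => ((j : ℕ) : ZMod m) ∈ T

theorem conv_per {m : ℕ} (T : Finset (ZMod m)) (S : Finset ℕ) (hS : ∀ i ∈ S, i < m) {k : ℕ}
    (hk : m ≤ k) (hk2 : k < 2 * m) :
    conv S (per m T) k = (S.filter fun i => ((k : ℕ) : ZMod m) - ((i : ℕ) : ZMod m) ∈ T).card := by
  rw [conv]
  congr 1
  refine filter_congr fun i hi => ?_
  have h1 := hS i hi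
  rw [per, mem_filter, mem_range, Nat.cast_sub (by omega)]
  constructor
  · exact fun h => h.2.2
  · exact fun h => ⟨by omega, by omega, h⟩

/-- **No carries, cyclic form.** -/
theorem testBit_cyclic (L : ℕ) (hL : 1 ≤ L) {m : ℕ} (T : Finset (ZMod m)) (S : Finset ℕ)
    (hS : ∀ i ∈ S, i < m) (hc : S.card < 2 ^ L) {k : ℕ} (hk : m ≤ k) (hk2 : k < 2 * m) :
    Nat.testBit (val L S * val L (per m T)) (L * k) =
      decide ((S.filter fun i => ((k : ℕ) : ZMod m) - ((i : ℕ) : ZMod m) ∈ T).card % 2 = 1) := by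
  rw [testBit_mul L hL S _ hc, conv_per T S hS hk hk2]

/-- the value of a bit vector with ones at the positions `L i`, `i ∈ S` -/
theorem sum_bits {n : ℕ} (L : ℕ) (hL : 1 ≤ L) (S : Finset ℕ) (hS : ∀ i ∈ S, L * i < n)
    (x : Fin n → Bool) (hx : ∀ b : Fin n, x b = true ↔ ∃ i ∈ S, L * i = (b : ℕ)) :
    ∑ b : Fin n, (if x b = true then 2 ^ (b : ℕ) else 0) = val L S := by
  rw [← sum_filter, val]
  have h1 : (univ.filter fun b : Fin n => x b = true).map Fin.valEmbedding =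
      S.image fun i => L * i := by
    ext b
    rw [mem_map, mem_image]
    constructor
    · rintro ⟨b, hb, rfl⟩
      obtain ⟨i, hi, h⟩ := (hx b).1 (mem_filter.1 hb).2
      exact ⟨i, hi, h⟩
    · rintro ⟨i, hi, rfl⟩
      exact ⟨⟨L * i, hS i hi⟩, mem_filter.2 ⟨mem_univ _, (hx _).2 ⟨i, hi, rfl⟩⟩, rfl⟩
  have h2 : ∑ b ∈ univ.filter (fun b : Fin n => x b = true), 2 ^ (b : ℕ) =
      ∑ b ∈ (univ.filter fun b : Fin n => x b = true).map Fin.valEmbedding, 2 ^ b := by
    rw [sum_map]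
    rfl
  rw [h2, h1, sum_image]
  intro i _ j _ h
  exact Nat.eq_of_mul_eq_mul_left (by omega) h

end Pool.Agent.HazConv
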