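import Mathlib

/-!
# Sets with few representations of every difference, in cyclic groups (helper46)

For an odd prime `p`, `n ≥ 4 p ^ 2` and `s ≤ p` the set `convSet p n s` of the residues
`2 p a + ((a ^ 2 + a x) mod p)`, `1 ≤ a < p`, `0 ≤ x < s`, has `(p - 1) s` elements and every
nonzero difference occurs at most `s ^ 2 + p` times (at most once if `s = 1`). So the sets
`k - convSet p n s` of the cyclic convolution have small pairwise intersections.
-/

set_option autoImplicit false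

namespace Pool.Agent.HazConv

/-- the integer behind a point -/
def ptN (p a x : ℕ) : ℕ := 2 * p * a + (a ^ 2 + a * x) % p

/-- the point of `ZMod n` with parameters `a`, `x` -/
def pt (p n a x : ℕ) : ZMod n := ((ptN p a x : ℕ) : ZMod n)

/-- parameters -/
def params (p s : ℕ) : Finset (ℕ × ℕ) := Finset.Ico 1 p ×ˢ Finset.range s

/-- the set -/
def convSet (p n s : ℕ) : Finset (ZMod n) := (params p s).image fun q => pt p n q.1 q.2

theorem mem_params {p s : ℕ} {q : ℕ × ℕ} :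
    q ∈ params p s ↔ (1 ≤ q.1 ∧ q.1 < p) ∧ q.2 < s := by
  simp [params]

theorem ptN_lt {p a x : ℕ} (ha : a < p) : ptN p a x < 2 * p ^ 2 := by
  have hp : 0 < p := by omega
  have h1 : (a ^ 2 + a * x) % p < p := Nat.mod_lt _ hp
  have h2 : 2 * p * a ≤ 2 * p * (p - 1) := Nat.mul_le_mul_left _ (by omega)
  have h3 : 2 * p * (p - 1) + 2 * p = 2 * p ^ 2 := by
    obtain ⟨r, rfl⟩ : ∃ r, p = r + 1 := ⟨p - 1, by omega⟩
    simp only [Nat.add_sub_cancel]
    ring
  unfold ptN
  omega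

/-- differences are determined as pairs of integers -/
theorem diff_eq {p n a x a' x' c y c' y' : ℕ} (ha : a < p) (ha' : a' < p) (hc : c < p)
    (hc' : c' < p) (hn : 4 * p ^ 2 ≤ n)
    (h : pt p n a x - pt p n a' x' = pt p n c y - pt p n c' y') :
    (a : ℤ) - a' = c - c' ∧
      (((a ^ 2 + a * x) % p : ℕ) : ℤ) - ((a' ^ 2 + a' * x') % p : ℕ) =
        ((c ^ 2 + c * y) % p : ℕ) - ((c' ^ 2 + c' * y') % p : ℕ) := by
  have hp : 0 < p := by omega
  have h1 : ((ptN p a x + ptN p c' y' : ℕ) : ZMod n) = ((ptN p c y + ptN p a' x' : ℕ) : ZMod n) := by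
    unfold pt at h
    push_cast
    linear_combination h
  rw [ZMod.natCast_eq_natCast_iff'] at h1
  have b1 := ptN_lt (x := x) ha
  have b2 := ptN_lt (x := y') hc'
  have b3 := ptN_lt (x := y) hc
  have b4 := ptN_lt (x := x') ha'
  rw [Nat.mod_eq_of_lt (by omega), Nat.mod_eq_of_lt (by omega)] at h1
  have m1 : (a ^ 2 + a * x) % p < p := Nat.mod_lt _ hp
  have m2 : (a' ^ 2 + a' * x') % p < p := Nat.mod_lt _ hp
  have m3 : (c ^ 2 + c * y) % p < p := Nat.mod_lt _ hp
  have m4 : (c' ^ 2 + c' * y') % p < p := Nat.mod_lt _ hp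
  unfold ptN at h1
  generalize (a ^ 2 + a * x) % p = r1 at *
  generalize (a' ^ 2 + a' * x') % p = r2 at *
  generalize (c ^ 2 + c * y) % p = r3 at *
  generalize (c' ^ 2 + c' * y') % p = r4 at *
  have h2 : 2 * p * (a + c') + (r1 + r4) = 2 * p * (c + a') + (r3 + r2) := by
    linarith [h1, mul_add (2 * p) a c', mul_add (2 * p) c a']
  have h3 : a + c' = c + a' := by
    have e1 : (2 * p * (a + c') + (r1 + r4)) / (2 * p) = a + c' := by
      rw [Nat.mul_add_div (by omega), Nat.div_eq_of_lt (by omega), add_zero]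
    have e2 : (2 * p * (c + a') + (r3 + r2)) / (2 * p) = c + a' := by
      rw [Nat.mul_add_div (by omega), Nat.div_eq_of_lt (by omega), add_zero]
    rw [← e1, ← e2, h2]
  have h4 : r1 + r4 = r3 + r2 := by
    rw [h3] at h2
    omega
  constructor
  · omega
  · omega

/-- reduction modulo `p` -/
theorem cast_mod (p m : ℕ) : ((m % p : ℕ) : ZMod p) = (m : ZMod p) := by
  rw [ZMod.natCast_mod]

theorem natCast_inj {p a c : ℕ} (ha : a < p) (hc : c < p) (h : (a : ZMod p) = (c : ZMod p)) :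
    a = c := by
  rw [ZMod.natCast_eq_natCast_iff'] at h
  rwa [Nat.mod_eq_of_lt ha, Nat.mod_eq_of_lt hc] at h

theorem pt_inj {p n s : ℕ} (hp : p.Prime) (hn : 4 * p ^ 2 ≤ n) (hs : s ≤ p) :
    Set.InjOn (fun q : ℕ × ℕ => pt p n q.1 q.2) (params p s) := by
  rintro ⟨a, x⟩ hax ⟨c, y⟩ hcy h
  rw [Finset.mem_coe, mem_params] at hax hcy
  simp only at hax hcy h
  have : Fact p.Prime := ⟨hp⟩
  have h1 := diff_eq (x := x) (x' := y) (y := y) (y' := y) hax.1.2 hcy.1.2 hcy.1.2 hcy.1.2 hn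
    (by rw [h])
  obtain ⟨h2, h3⟩ := h1
  have hac : a = c := by omega
  subst hac
  have h4 : ((a ^ 2 + a * x) % p : ℕ) = (a ^ 2 + a * y) % p := by omega
  have h5 : ((a ^ 2 + a * x : ℕ) : ZMod p) = ((a ^ 2 + a * y : ℕ) : ZMod p) := by
    rw [← cast_mod p (a ^ 2 + a * x), ← cast_mod p (a ^ 2 + a * y), h4]
  push_cast at h5
  have h6 : (a : ZMod p) ≠ 0 := by
    intro h0
    rw [ZMod.natCast_eq_zero_iff] at h0
    exact absurd (Nat.le_of_dvd (by omega) h0) (by omega)
  have h7 : (x : ZMod p) = (y : ZMod p) := by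
    have : (a : ZMod p) * x = a * y := by linear_combination h5
    exact mul_left_cancel₀ h6 this
  have h8 := natCast_inj (by omega) (by omega) h7
  rw [h8]

theorem card_convSet {p n s : ℕ} (hp : p.Prime) (hn : 4 * p ^ 2 ≤ n) (hs : s ≤ p) :
    (convSet p n s).card = (p - 1) * s := by
  rw [convSet, Finset.card_image_of_injOn (pt_inj hp hn hs), params, Finset.card_product,
    Nat.card_Ico, Finset.card_range]

/-- the pairs of parameters with a given difference -/
def diffs (p n s : ℕ) (δ : ZMod n) : Finset ((ℕ × ℕ) × (ℕ × ℕ)) :=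
  (params p s ×ˢ params p s).filter fun q => pt p n q.1.1 q.1.2 - pt p n q.2.1 q.2.2 = δ

/-- the key equation modulo `p` -/
theorem key_eq {p n a x a' x' : ℕ} {u v : ℤ} (hu : (a : ℤ) - a' = u)
    (hv : (((a ^ 2 + a * x) % p : ℕ) : ℤ) - ((a' ^ 2 + a' * x') % p : ℕ) = v) :
    (a' : ZMod p) * (2 * (u : ZMod p) + x - x') = (v : ZMod p) - (u : ZMod p) ^ 2 - u * x := by
  have h1 : ((a ^ 2 + a * x : ℕ) : ZMod p) - ((a' ^ 2 + a' * x' : ℕ) : ZMod p) = (v : ZMod p) := by
    rw [← cast_mod p (a ^ 2 + a * x), ← cast_mod p (a' ^ 2 + a' * x')]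
    rw [← hv, Int.cast_sub, Int.cast_natCast, Int.cast_natCast]
  have h2 : (a : ZMod p) = a' + u := by
    rw [← hu]
    push_cast
    ring
  push_cast at h1
  rw [h2] at h1
  linear_combination h1

theorem card_diffs_aux {p n s : ℕ} (hp : p.Prime) (hp2 : p ≠ 2) (hn : 4 * p ^ 2 ≤ n)
    (hs : s ≤ p) (δ : ZMod n) (hδ : δ ≠ 0) :
    ∃ f : (ℕ × ℕ) × (ℕ × ℕ) → (ℕ × ℕ) ⊕ ℕ, Set.InjOn f (diffs p n s δ) ∧
      (∀ q ∈ diffs p n s δ, (∃ x y, f q = Sum.inl (x, y) ∧ x < s ∧ y < s) ∨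
        (∃ a, f q = Sum.inr a ∧ a < p ∧ s ≠ 1)) := by
  classical
  have : Fact p.Prime := ⟨hp⟩
  by_cases hne : (diffs p n s δ).Nonempty
  swap
  · rw [Finset.not_nonempty_iff_eq_empty] at hne
    rw [hne]
    exact ⟨fun _ => Sum.inr 0, by simp, by simp⟩
  obtain ⟨q0, hq0⟩ := hne
  obtain ⟨⟨a0, x0⟩, ⟨b0, y0⟩⟩ := q0
  simp only [diffs, Finset.mem_filter, Finset.mem_product, mem_params] at hq0
  obtain ⟨⟨⟨⟨ha0, ha0'⟩, hx0⟩, ⟨⟨hb0, hb0'⟩, hy0⟩⟩, hδ0⟩ := hq0
  set u : ℤ := (a0 : ℤ) - b0 with hu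
  set v : ℤ := (((a0 ^ 2 + a0 * x0) % p : ℕ) : ℤ) - ((b0 ^ 2 + b0 * y0) % p : ℕ) with hv
  have hp0 : 0 < p := hp.pos
  have hall : ∀ q ∈ diffs p n s δ, ((1 ≤ q.1.1 ∧ q.1.1 < p) ∧ q.1.2 < s) ∧
      ((1 ≤ q.2.1 ∧ q.2.1 < p) ∧ q.2.2 < s) ∧ (q.1.1 : ℤ) - q.2.1 = u ∧
      (((q.1.1 ^ 2 + q.1.1 * q.1.2) % p : ℕ) : ℤ) - ((q.2.1 ^ 2 + q.2.1 * q.2.2) % p : ℕ) = v := by
    rintro ⟨⟨a, x⟩, ⟨b, y⟩⟩ hq
    simp only [diffs, Finset.mem_filter, Finset.mem_product, mem_params] at hq
    obtain ⟨⟨h1, h2⟩, h3⟩ := hq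
    have h4 := diff_eq (x := x) (x' := y) (y := x0) (y' := y0) h1.1.2 h2.1.2 ha0' hb0' hn
      (by rw [h3, hδ0])
    exact ⟨h1, h2, h4.1, h4.2⟩
  have hp2' : (2 : ZMod p) ≠ 0 := by
    intro h0
    have h1 : ((2 : ℕ) : ZMod p) = 0 := by exact_mod_cast h0
    rw [ZMod.natCast_eq_zero_iff] at h1
    have := (Nat.prime_dvd_prime_iff_eq hp Nat.prime_two).1 h1
    exact hp2 this
  -- u = 0 implies v ≠ 0 in ZMod p
  have huv : (u : ZMod p) = 0 → (v : ZMod p) ≠ 0 := by
    intro h0 hv0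
    rw [ZMod.intCast_zmod_eq_zero_iff_dvd] at h0 hv0
    have m1 : (a0 ^ 2 + a0 * x0) % p < p := Nat.mod_lt _ hp0
    have m2 : (b0 ^ 2 + b0 * y0) % p < p := Nat.mod_lt _ hp0
    have hu0 : u = 0 := by
      refine Int.eq_zero_of_abs_lt_dvd h0 ?_
      rw [abs_lt]
      constructor <;> omega
    have hv0' : v = 0 := by
      refine Int.eq_zero_of_abs_lt_dvd hv0 ?_
      rw [abs_lt]
      constructor <;> omega
    apply hδ
    rw [← hδ0]
    have e1 : a0 = b0 := by omega
    have e2 : (a0 ^ 2 + a0 * x0) % p = (b0 ^ 2 + b0 * y0) % p := by omega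
    unfold pt ptN
    rw [e2, e1, sub_self]
  refine ⟨fun q => if (2 * (u : ZMod p) + (q.1.2 : ℕ) - (q.2.2 : ℕ)) ≠ 0 then
    Sum.inl (q.1.2, q.2.2) else Sum.inr q.2.1, ?_, ?_⟩
  · intro q hq r hr hqr
    have hq' := hall q (Finset.mem_coe.1 hq)
    have hr' := hall r (Finset.mem_coe.1 hr)
    obtain ⟨⟨a, x⟩, ⟨b, y⟩⟩ := q
    obtain ⟨⟨c, z⟩, ⟨d, w⟩⟩ := r
    simp only at hqr hq' hr'
    obtain ⟨hq1, hq2, hq3, hq4⟩ := hq'
    obtain ⟨hr1, hr2, hr3, hr4⟩ := hr'
    have kq := key_eq (n := n) hq3 hq4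
    have kr := key_eq (n := n) hr3 hr4
    by_cases c1 : (2 * (u : ZMod p) + (x : ℕ) - (y : ℕ)) ≠ 0
    · by_cases c2 : (2 * (u : ZMod p) + (z : ℕ) - (w : ℕ)) ≠ 0
      · rw [if_pos c1, if_pos c2] at hqr
        simp only [Sum.inl.injEq, Prod.mk.injEq] at hqr
        obtain ⟨rfl, rfl⟩ := hqr
        have hbd : (b : ZMod p) = (d : ZMod p) := by
          have : (b : ZMod p) * (2 * (u : ZMod p) + (x : ℕ) - (y : ℕ)) =
              d * (2 * (u : ZMod p) + (x : ℕ) - (y : ℕ)) := by rw [kq, kr]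
          exact mul_right_cancel₀ c1 this
        have hbd' : b = d := natCast_inj (by omega) (by omega) hbd
        subst hbd'
        have : a = c := by omega
        rw [this]
      · rw [if_pos c1, if_neg c2] at hqr
        exact absurd hqr (by simp)
    · by_cases c2 : (2 * (u : ZMod p) + (z : ℕ) - (w : ℕ)) ≠ 0
      · rw [if_neg c1, if_pos c2] at hqr
        exact absurd hqr (by simp)
      · rw [if_neg c1, if_neg c2] at hqr
        simp only [Sum.inr.injEq] at hqr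
        subst hqr
        push Not at c1 c2
        rw [c1, mul_zero] at kq
        rw [c2, mul_zero] at kr
        have hu0 : (u : ZMod p) ≠ 0 := by
          intro h0
          rw [h0] at kq
          apply huv h0
          linear_combination -kq
        have hxz : (x : ZMod p) = (z : ZMod p) := by
          have : (u : ZMod p) * x = u * z := by linear_combination kq - kr
          exact mul_left_cancel₀ hu0 this
        have hxz' : x = z := natCast_inj (by omega) (by omega) hxz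
        subst hxz'
        have hyw : (y : ZMod p) = (w : ZMod p) := by linear_combination c2 - c1
        have hyw' : y = w := natCast_inj (by omega) (by omega) hyw
        subst hyw'
        have : a = c := by omega
        rw [this]
  · intro q hq
    have hq' := hall q hq
    obtain ⟨⟨a, x⟩, ⟨b, y⟩⟩ := q
    simp only at hq' ⊢
    obtain ⟨hq1, hq2, hq3, hq4⟩ := hq'
    by_cases c1 : (2 * (u : ZMod p) + (x : ℕ) - (y : ℕ)) ≠ 0
    · left
      exact ⟨x, y, by rw [if_pos c1], hq1.2, hq2.2⟩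
    · right
      refine ⟨b, by rw [if_neg c1], hq2.1.2, ?_⟩
      intro hs1
      push Not at c1
      have hx : x = 0 := by omega
      have hy : y = 0 := by omega
      subst hx
      subst hy
      have kq := key_eq (n := n) hq3 hq4
      have hu0 : (u : ZMod p) = 0 := by
        have : (2 : ZMod p) * u = 0 := by
          simpa using c1
        rcases mul_eq_zero.1 this with h | h
        · exact absurd h hp2'
        · exact h
      apply huv hu0
      rw [hu0] at kq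
      simp only [Nat.cast_zero, mul_zero, add_zero, sub_zero, zero_pow two_ne_zero] at kq
      exact kq.symm

theorem card_diffs {p n s : ℕ} (hp : p.Prime) (hp2 : p ≠ 2) (hn : 4 * p ^ 2 ≤ n)
    (hs : s ≤ p) (δ : ZMod n) (hδ : δ ≠ 0) :
    (diffs p n s δ).card ≤ s ^ 2 + p := by
  obtain ⟨f, hf, hf2⟩ := card_diffs_aux hp hp2 hn hs δ hδ
  calc (diffs p n s δ).card
      ≤ ((Finset.range s ×ˢ Finset.range s).disjSum (Finset.range p)).card := by
        refine Finset.card_le_card_of_injOn f ?_ hf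
        intro q hq
        rcases hf2 q (Finset.mem_coe.1 hq) with ⟨x, y, h1, h2, h3⟩ | ⟨a, h1, h2, _⟩
        · rw [h1]
          simp [h2, h3]
        · rw [h1]
          simp [h2]
    _ = s ^ 2 + p := by
        rw [Finset.card_disjSum, Finset.card_product, Finset.card_range, Finset.card_range]
        ring

theorem card_diffs_one {p n : ℕ} (hp : p.Prime) (hp2 : p ≠ 2) (hn : 4 * p ^ 2 ≤ n)
    (δ : ZMod n) (hδ : δ ≠ 0) :
    (diffs p n 1 δ).card ≤ 1 := by
  obtain ⟨f, hf, hf2⟩ := card_diffs_aux hp hp2 hn hp.one_lt.le δ hδ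
  rw [Finset.card_le_one]
  intro q hq r hr
  apply hf (Finset.mem_coe.2 hq) (Finset.mem_coe.2 hr)
  rcases hf2 q hq with ⟨x, y, h1, h2, h3⟩ | ⟨a, h1, h2, h3⟩
  · rcases hf2 r hr with ⟨x', y', h1', h2', h3'⟩ | ⟨a, h1', h2', h3'⟩
    · rw [h1, h1']
      have e1 : x = x' := by omega
      have e2 : y = y' := by omega
      rw [e1, e2]
    · exact absurd rfl h3'
  · exact absurd rfl h3

/-- pairs of points with a given difference -/
theorem card_diff_pairs {p n s : ℕ} (δ : ZMod n) :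
    (((convSet p n s) ×ˢ (convSet p n s)).filter (fun q => q.1 - q.2 = δ)).card ≤
      (diffs p n s δ).card := by
  classical
  refine (Finset.card_le_card ?_).trans (Finset.card_image_le (s := diffs p n s δ)
    (f := fun q => (pt p n q.1.1 q.1.2, pt p n q.2.1 q.2.2)))
  rintro ⟨t, t'⟩ ht
  simp only [Finset.mem_filter, Finset.mem_product, convSet, Finset.mem_image] at ht
  obtain ⟨⟨⟨q, hq, rfl⟩, ⟨r, hr, rfl⟩⟩, h⟩ := ht
  rw [Finset.mem_image]
  refine ⟨(q, r), ?_, rfl⟩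
  simp only [diffs, Finset.mem_filter, Finset.mem_product]
  exact ⟨⟨hq, hr⟩, h⟩

/-- the summation sets of the outputs of the cyclic convolution with `convSet` -/
def outSet (p n s : ℕ) (k : ZMod n) : Finset (ZMod n) := (convSet p n s).image fun t => k - t

theorem mem_outSet {p n s : ℕ} {k i : ZMod n} : i ∈ outSet p n s k ↔ k - i ∈ convSet p n s := by
  rw [outSet, Finset.mem_image]
  constructor
  · rintro ⟨t, ht, rfl⟩
    rwa [sub_sub_cancel]
  · intro h
    exact ⟨k - i, h, sub_sub_cancel _ _⟩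

theorem card_outSet {p n s : ℕ} (hp : p.Prime) (hn : 4 * p ^ 2 ≤ n) (hs : s ≤ p) (k : ZMod n) :
    (outSet p n s k).card = (p - 1) * s := by
  rw [outSet, Finset.card_image_of_injective _ (sub_right_injective (b := k)),
    card_convSet hp hn hs]

theorem card_inter_le {p n s : ℕ} {k l : ZMod n} :
    (outSet p n s k ∩ outSet p n s l).card ≤ (diffs p n s (k - l)).card := by
  classical
  refine le_trans ?_ (card_diff_pairs (k - l))
  refine Finset.card_le_card_of_injOn (fun i => (k - i, l - i)) ?_ ?_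
  · intro i hi
    rw [Finset.mem_coe, Finset.mem_inter, mem_outSet, mem_outSet] at hi
    simp only [Finset.coe_filter, Finset.mem_product, Set.mem_ofPred_eq]
    exact ⟨hi, by ring⟩
  · intro i _ j _ h
    simp only [Prod.mk.injEq] at h
    exact sub_right_injective h.1

theorem card_inter {p n s : ℕ} (hp : p.Prime) (hp2 : p ≠ 2) (hn : 4 * p ^ 2 ≤ n) (hs : s ≤ p)
    {k l : ZMod n} (hkl : k ≠ l) : (outSet p n s k ∩ outSet p n s l).card ≤ s ^ 2 + p :=
  card_inter_le.trans (card_diffs hp hp2 hn hs _ (sub_ne_zero.2 hkl))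

theorem card_inter_one {p n : ℕ} (hp : p.Prime) (hp2 : p ≠ 2) (hn : 4 * p ^ 2 ≤ n)
    {k l : ZMod n} (hkl : k ≠ l) : (outSet p n 1 k ∩ outSet p n 1 l).card ≤ 1 :=
  card_inter_le.trans (card_diffs_one hp hp2 hn _ (sub_ne_zero.2 hkl))

/-- every input is in `(p - 1) s` of the sets -/
theorem card_degree {p n s : ℕ} [NeZero n] (hp : p.Prime) (hn : 4 * p ^ 2 ≤ n) (hs : s ≤ p)
    (i : ZMod n) : (Finset.univ.filter fun k : ZMod n => i ∈ outSet p n s k).card =
      (p - 1) * s := by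
  classical
  rw [← card_convSet hp hn hs]
  refine Finset.card_nbij' (fun k => k - i) (fun t => t + i) ?_ ?_ ?_ ?_
  · intro k hk
    rw [Finset.mem_coe, Finset.mem_filter, mem_outSet] at hk
    exact Finset.mem_coe.2 hk.2
  · intro t ht
    rw [Finset.mem_coe, Finset.mem_filter, mem_outSet]
    refine ⟨Finset.mem_univ _, ?_⟩
    rw [add_sub_cancel_right]
    exact Finset.mem_coe.1 ht
  · intro k _
    simp
  · intro t _
    simp

/-- a prime with `p ^ 2` of order `n` -/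
theorem exists_prime (n : ℕ) (hn : 100 ≤ n) : ∃ p : ℕ, p.Prime ∧ p ≠ 2 ∧ 4 * p ^ 2 ≤ n ∧
    n ≤ 64 * p ^ 2 := by
  set m := Nat.sqrt n / 4 with hm
  have h1 : 10 ≤ Nat.sqrt n := by
    rw [Nat.le_sqrt]
    omega
  have hm1 : 2 ≤ m := by omega
  obtain ⟨p, hp, h2, h3⟩ := Nat.exists_prime_lt_and_le_two_mul m (by omega)
  have hs1 := Nat.sqrt_le n
  have hs2 := Nat.sqrt_lt_self (n := n) (by omega)
  have hs3 : n < (Nat.sqrt n + 1) * (Nat.sqrt n + 1) := Nat.lt_succ_sqrt n
  refine ⟨p, hp, by omega, ?_, ?_⟩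
  · have h4 : 2 * p ≤ Nat.sqrt n := by omega
    calc 4 * p ^ 2 = (2 * p) * (2 * p) := by ring
      _ ≤ Nat.sqrt n * Nat.sqrt n := Nat.mul_le_mul h4 h4
      _ ≤ n := hs1
  · have h5 : Nat.sqrt n + 1 ≤ 8 * p := by omega
    calc n ≤ (Nat.sqrt n + 1) * (Nat.sqrt n + 1) := hs3.le
      _ ≤ (8 * p) * (8 * p) := Nat.mul_le_mul h5 h5
      _ = 64 * p ^ 2 := by ring

end Pool.Agent.HazConv
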