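import Pool.Agent.Lib_MP_22d2c8_hz.Haz
import Pool.Agent.Lib_MP_22d2c8_hz.Neg
import Pool.Agent.Lib_MP_22d2c8_hz.Chain
import Pool.Agent.Lib_MP_22d2c8_hzc.ConvSet
import Pool.Agent.Lib_MP_22d2c8_hzc.Arith

/-!
# Multiplication of numbers and of polynomials, Boolean convolution (helper46)
-/

set_option autoImplicit false

namespace Pool.Agent.HazConv

open Finset Pool.Agent.Lib_MP_22d2c8_hz

variable {n L m p : ℕ}

/-- the input with the number `L z` of the first block -/
def inp (hL : 0 < L) [NeZero m] (h : L * m ≤ n) : ZMod m ↪ Fin n ⊕ Fin n :=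
  ⟨fun z => Sum.inl ⟨L * z.val, ((Nat.mul_lt_mul_left hL).2 (ZMod.val_lt z)).trans_le h⟩, by
    intro a b hab
    simp only [Sum.inl.injEq, Fin.mk.injEq] at hab
    exact ZMod.val_injective m (Nat.eq_of_mul_eq_mul_left hL hab)⟩

/-- the second factor -/
def tvec (n L m p : ℕ) : Fin n → Bool := fun b =>
  decide (∃ j ∈ per m (convSet p m 1), L * j = (b : ℕ))

/-- the outputs -/
def outs (n L m : ℕ) : Finset (Fin (2 * n)) :=
  univ.filter fun o => (o : ℕ) ∈ (Ico m (2 * m)).image fun k => L * k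

theorem mem_outs {o : Fin (2 * n)} :
    o ∈ outs n L m ↔ ∃ k, m ≤ k ∧ k < 2 * m ∧ L * k = (o : ℕ) := by
  rw [outs, mem_filter, mem_image]
  simp only [mem_univ, true_and, mem_Ico, and_assoc]

theorem card_outs (hL : 0 < L) (h : 2 * (L * m) ≤ n) : (outs n L m).card = m := by
  have h1 : ∀ k ∈ Ico m (2 * m), L * k < 2 * n := by
    intro k hk
    have h2 := (mem_Ico.1 hk).2
    have h3 : L * k < L * (2 * m) := (Nat.mul_lt_mul_left hL).2 h2
    have h4 : L * (2 * m) = 2 * (L * m) := by ring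
    omega
  have h2 : (Ico m (2 * m)).card = (outs n L m).card := by
    refine card_bij (fun k hk => (⟨L * k, h1 k hk⟩ : Fin (2 * n))) ?_ ?_ ?_
    · intro k hk
      exact mem_filter.2 ⟨mem_univ _, mem_image_of_mem _ hk⟩
    · intro k hk l hl hkl
      simp only [Fin.mk.injEq] at hkl
      exact Nat.eq_of_mul_eq_mul_left hL hkl
    · intro o ho
      obtain ⟨k, hk, hko⟩ := mem_image.1 (mem_filter.1 ho).2
      exact ⟨k, hk, Fin.ext hko⟩
  rw [← h2, Nat.card_Ico]
  omega

/-- the sets -/
def setA (hL : 0 < L) [NeZero m] (h : L * m ≤ n) (p : ℕ) (o : Fin (2 * n)) :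
    Finset (Fin n ⊕ Fin n) :=
  (outSet p m 1 (((o : ℕ) / L : ℕ) : ZMod m)).map (inp hL h)

section

variable (hL : 0 < L) [NeZero m] (h : L * m ≤ n)

theorem card_setA (hp : p.Prime) (hm : 4 * p ^ 2 ≤ m) (o : Fin (2 * n)) :
    (setA hL h p o).card = p - 1 := by
  rw [setA, card_map, card_outSet hp hm hp.one_lt.le, mul_one]

theorem setA_subset (o : Fin (2 * n)) : setA hL h p o ⊆ univ.map (inp hL h) :=
  map_subset_map.2 (subset_univ _)

theorem cast_ne {k l : ℕ} (hk : m ≤ k) (hk2 : k < 2 * m) (hl : m ≤ l) (hl2 : l < 2 * m)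
    (hkl : k ≠ l) : (k : ZMod m) ≠ (l : ZMod m) := by
  intro h0
  have h1 := (ZMod.natCast_eq_natCast_iff' k l m).1 h0
  rw [Nat.mod_eq_sub_mod hk, Nat.mod_eq_sub_mod hl, Nat.mod_eq_of_lt (by omega),
    Nat.mod_eq_of_lt (by omega)] at h1
  omega

theorem inter_setA (hp : p.Prime) (hp2 : p ≠ 2) (hm : 4 * p ^ 2 ≤ m) {o o' : Fin (2 * n)}
    (ho : o ∈ outs n L m) (ho' : o' ∈ outs n L m) (hne : o ≠ o') :
    (setA hL h p o ∩ setA hL h p o').card ≤ 1 := by
  obtain ⟨k, hk, hk2, hko⟩ := mem_outs.1 ho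
  obtain ⟨l, hl, hl2, hlo⟩ := mem_outs.1 ho'
  rw [setA, setA, ← map_inter, card_map, ← hko, ← hlo, Nat.mul_div_cancel_left _ hL,
    Nat.mul_div_cancel_left _ hL]
  refine card_inter_one hp hp2 hm (cast_ne hk hk2 hl hl2 ?_)
  rintro rfl
  exact hne (Fin.ext (hko.symm.trans hlo))

theorem mult_setA (hp : p.Prime) (hp2 : p ≠ 2) (hm : 4 * p ^ 2 ≤ m) {K : Finset (Fin (2 * n))}
    (hK : K ⊆ outs n L m) (S : Finset (Fin n ⊕ Fin n)) (hS : 1 < S.card) :
    (K.filter fun k => S ⊆ setA hL h p k).card ≤ 1 := by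
  refine card_le_one.2 fun k hk l hl => ?_
  rw [mem_filter] at hk hl
  by_contra hkl
  have h1 := card_le_card (subset_inter hk.2 hl.2)
  have h2 := inter_setA hL h hp hp2 hm (hK hk.1) (hK hl.1) hkl
  omega

theorem mem_setA {o : Fin (2 * n)} {k : ℕ} (hko : L * k = (o : ℕ)) (z : ZMod m) :
    inp hL h z ∈ setA hL h p o ↔ (k : ZMod m) - z ∈ convSet p m 1 := by
  rw [setA, mem_map' (inp hL h), mem_outSet, ← hko, Nat.mul_div_cancel_left _ hL]

/-- the number of sets containing an input -/
theorem degree_setA (hp : p.Prime) (hm : 4 * p ^ 2 ≤ m) (z : ZMod m) :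
    ((outs n L m).filter fun o => inp hL h z ∈ setA hL h p o).card ≤ p - 1 := by
  have h1 := card_degree hp hm hp.one_lt.le z
  rw [mul_one] at h1
  rw [← h1]
  refine card_le_card_of_injOn (fun o => (((o : ℕ) / L : ℕ) : ZMod m)) ?_ ?_
  · intro o ho
    rw [mem_coe, mem_filter] at ho
    rw [mem_coe, mem_filter]
    refine ⟨mem_univ _, ?_⟩
    have h2 := ho.2
    rw [setA, mem_map' (inp hL h)] at h2
    exact h2
  · intro o ho o' ho' heq
    rw [mem_coe, mem_filter] at ho ho'
    obtain ⟨k, hk, hk2, hko⟩ := mem_outs.1 ho.1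
    obtain ⟨l, hl, hl2, hlo⟩ := mem_outs.1 ho'.1
    simp only at heq
    rw [← hko, ← hlo, Nat.mul_div_cancel_left _ hL, Nat.mul_div_cancel_left _ hL] at heq
    by_contra hne
    refine cast_ne hk hk2 hl hl2 ?_ heq
    rintro rfl
    exact hne (Fin.ext (hko.symm.trans hlo))

end

/-- the digits of a product of a sparse number and the second factor -/
theorem out_eq (hL : 0 < L) [NeZero m] (h : L * m ≤ n)
    {C : Circuit (Fin n ⊕ Fin n) (Fin (2 * n))} (hC : C.MulNat)
    (h2 : 2 * (L * m) ≤ n) (Z : Finset (ZMod m)) (hZ : Z.card < 2 ^ L)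
    (y : Fin n ⊕ Fin n → Bool) (hy1 : ∀ b, y (Sum.inl b) = true ↔ ∃ z ∈ Z, L * z.val = (b : ℕ))
    (hy2 : ∀ b, y (Sum.inr b) = tvec n L m p b) {o : Fin (2 * n)} {k : ℕ}
    (hko : L * k = (o : ℕ)) (hk : m ≤ k) (hk2 : k < 2 * m) :
    C.val y (C.out o) = decide ((Z.filter fun z => (k : ZMod m) - z ∈ convSet p m 1).card % 2 = 1)
    := by
  have e0 : y = two (fun b => y (Sum.inl b)) (tvec n L m p) := by
    funext w
    rcases w with b | b
    · rfl
    · exact hy2 b
  rw [e0, hC]
  have hval : ∀ i ∈ Z.image ZMod.val, i < m := by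
    intro i hi
    obtain ⟨z, _, rfl⟩ := mem_image.1 hi
    exact ZMod.val_lt z
  have e1 : num (fun b => y (Sum.inl b)) = val L (Z.image ZMod.val) := by
    refine sum_bits L hL (Z.image ZMod.val) (fun i hi => ?_) _ fun b => ?_
    · exact ((Nat.mul_lt_mul_left hL).2 (hval i hi)).trans_le h
    · rw [hy1]
      constructor
      · rintro ⟨z, hz, hzb⟩
        exact ⟨z.val, mem_image_of_mem _ hz, hzb⟩
      · rintro ⟨i, hi, hib⟩
        obtain ⟨z, hz, rfl⟩ := mem_image.1 hi
        exact ⟨z, hz, hib⟩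
  have e2 : num (tvec n L m p) = val L (per m (convSet p m 1)) := by
    refine sum_bits L hL (per m (convSet p m 1)) (fun j hj => ?_) _ fun b => ?_
    · rw [per, mem_filter, mem_range] at hj
      have h3 : L * j < L * (2 * m) := (Nat.mul_lt_mul_left hL).2 hj.1
      have h4 : L * (2 * m) = 2 * (L * m) := by ring
      omega
    · rw [tvec, decide_eq_true_iff]
  have hcard : (Z.image ZMod.val).card = Z.card :=
    card_image_of_injective _ (ZMod.val_injective m)
  rw [e1, e2, ← hko, testBit_cyclic L hL _ _ hval (hcard.trans_lt hZ) hk hk2]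
  congr 3
  rw [filter_image, card_image_of_injective _ (ZMod.val_injective m)]
  congr 1
  refine filter_congr fun z _ => ?_
  rw [ZMod.natCast_zmod_val]

theorem exists_prime' (d : ℕ) (hd : 1 ≤ d) :
    ∃ p : ℕ, p.Prime ∧ p ≠ 2 ∧ d + 2 ≤ p ∧ p ≤ 2 * (d + 1) := by
  obtain ⟨p, hp, h2, h3⟩ := Nat.exists_prime_lt_and_le_two_mul (d + 1) (by omega)
  exact ⟨p, hp, by omega, by omega, h3⟩

/-- **Multiplication of integers.** -/
theorem mul_nat (n d : ℕ) (hd : 1 ≤ d) (hn : 32 * (d + 1) ^ 2 * (Nat.log 2 d + 1) ≤ n) :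
    ∃ (t : Fin n → Bool) (K0 : Finset (Fin (2 * n))), K0.card = n / (2 * (Nat.log 2 d + 1)) ∧
      ∀ C : Circuit (Fin n ⊕ Fin n) (Fin (2 * n)), C.MulNat → ∀ K ⊆ K0,
        (∀ k ∈ K, C.NoHazard (two (fun _ => false) t) d k) →
        (d + 1) * K.card ≤ C.wires ∧ ((∀ g, C.ar g ≤ 2) → d * K.card ≤ C.size) := by
  set L := Nat.log 2 d + 1 with hLdef
  have hL : 0 < L := by omega
  have hdL : d < 2 ^ L := Nat.lt_pow_succ_log_self (by norm_num) d
  set m := n / (2 * L) with hmdef
  have hm0 : 2 * (L * m) ≤ n := by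
    have := Nat.mul_div_le n (2 * L)
    rw [← hmdef] at this
    calc 2 * (L * m) = 2 * L * m := by ring
      _ ≤ n := this
  obtain ⟨p, hp, hp2, hpd, hpd2⟩ := exists_prime' d hd
  have hm : 4 * p ^ 2 ≤ m := by
    rw [hmdef, Nat.le_div_iff_mul_le (by omega)]
    have h1 : p ^ 2 ≤ (2 * (d + 1)) ^ 2 := Nat.pow_le_pow_left hpd2 2
    calc 4 * p ^ 2 * (2 * L) ≤ 4 * (2 * (d + 1)) ^ 2 * (2 * L) :=
          Nat.mul_le_mul_right _ (Nat.mul_le_mul_left _ h1)
      _ = 32 * (d + 1) ^ 2 * L := by ring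
      _ ≤ n := hn
  have hmpos : 0 < m := by
    have : 0 < p ^ 2 := by have := hp.pos; positivity
    omega
  have : NeZero m := ⟨hmpos.ne'⟩
  have h : L * m ≤ n := by omega
  refine ⟨tvec n L m p, outs n L m, card_outs hL hm0, fun C hC K hK hx => ?_⟩
  have hinter : ∀ k, setA hL h p k ∩ univ.map (inp hL h) = setA hL h p k := fun k =>
    inter_eq_left.2 (setA_subset hL h k)
  have hb := C.hazard_bound (two (fun _ => false) (tvec n L m p)) (univ.map (inp hL h)) K
    (setA hL h p) (fun _ => d) (le_refl 1)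
    (fun k _ => by rw [hinter, card_setA hL h hp hm]; omega)
    (fun S hS => mult_setA hL h hp hp2 hm hK S hS) (fun o ho i hi => ?_) (fun _ _ => hd)
    (fun o ho U hUN hU hUA => ?_)
  · simp only [hinter, card_setA hL h hp hm, one_mul] at hb
    have e1 : min (p - 1) (d + 1) = d + 1 := by omega
    have e2 : min (p - 1 - 1) d = d := by omega
    simp only [e1, e2, sum_const, smul_eq_mul] at hb
    refine ⟨by rw [Nat.mul_comm]; exact hb.1, fun h2 => by rw [Nat.mul_comm]; exact hb.2 h2⟩
  · -- sensitivity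
    obtain ⟨k, hk, hk2, hko⟩ := mem_outs.1 (hK ho)
    obtain ⟨z, -, rfl⟩ := mem_map.1 (setA_subset hL h o hi)
    have hz := (mem_setA hL h hko z).1 hi
    have h1 := out_eq hL h hC hm0 {z} (by
        rw [card_singleton]
        exact Nat.one_lt_two_pow hL.ne') (flipAt (two (fun _ => false) (tvec n L m p)) (inp hL h z))
      (fun b => by
        simp only [flipAt, mem_singleton, exists_eq_left]
        by_cases hb : Sum.inl b = inp hL h z
        · rw [hb, Function.update_self]
          have e1 : L * z.val = (b : ℕ) := by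
            have := Sum.inl.inj hb
            rw [this]
          simp [two, inp, e1]
        · rw [Function.update_of_ne hb]
          simp only [two, Sum.elim_inl, Bool.false_eq_true, false_iff]
          intro e1
          exact hb (congrArg Sum.inl (Fin.ext e1.symm)))
      (fun b => by
        rw [flipAt, Function.update_of_ne (by simp [inp])]
        rfl) hko hk hk2
    have h2 := out_eq hL h hC hm0 ∅ (by rw [card_empty]; positivity)
      (two (fun _ => false) (tvec n L m p)) (fun b => by simp [two]) (fun b => rfl) hko hk hk2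
    rw [h1, h2, filter_singleton, if_pos hz]
    simp
  · obtain ⟨k, hk, hk2, hko⟩ := mem_outs.1 (hK ho)
    refine fun hn => hx o ho U hU ⟨fun y hy => ?_, hn⟩
    have h2 := out_eq hL h hC hm0 ∅ (by rw [card_empty]; positivity)
      (two (fun _ => false) (tvec n L m p)) (fun b => by simp [two]) (fun b => rfl) hko hk hk2
    have hZU : (univ.filter fun z : ZMod m => y (inp hL h z) = true).map (inp hL h) ⊆ U := by
      intro w hw
      obtain ⟨z, hz, rfl⟩ := mem_map.1 hw
      by_contra hwU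
      have h3 := hy _ hwU
      rw [(mem_filter.1 hz).2] at h3
      exact absurd h3 (by simp [two, inp])
    have h1 := out_eq hL h hC hm0 (univ.filter fun z : ZMod m => y (inp hL h z) = true) (by
        have h3 := card_le_card hZU
        rw [card_map] at h3
        omega) y
      (fun b => by
        constructor
        · intro hb
          have hbU : Sum.inl b ∈ U := by
            by_contra hbU
            rw [hy _ hbU] at hb
            exact absurd hb (by simp [two])
          obtain ⟨z, -, hz⟩ := mem_map.1 (hUN hbU)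
          refine ⟨z, mem_filter.2 ⟨mem_univ _, by rw [hz]; exact hb⟩, ?_⟩
          have := Sum.inl.inj hz
          rw [← this]
        · rintro ⟨z, hz, hzb⟩
          have e1 : inp hL h z = Sum.inl b := congrArg Sum.inl (Fin.ext hzb)
          rw [← e1]
          exact (mem_filter.1 hz).2)
      (fun b => by
        have hbU : Sum.inr b ∉ U := by
          intro hbU
          obtain ⟨z, -, hz⟩ := mem_map.1 (hUN hbU)
          exact absurd hz (by simp [inp])
        rw [hy _ hbU]
        rfl) hko hk hk2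
    rw [h1, h2]
    have e3 : (univ.filter fun z : ZMod m => y (inp hL h z) = true).filter
        (fun z => (k : ZMod m) - z ∈ convSet p m 1) = ∅ := by
      rw [filter_eq_empty_iff]
      intro z hz hzT
      have h4 : inp hL h z ∈ U := hZU (mem_map_of_mem _ hz)
      exact disjoint_left.1 hUA h4 ((mem_setA hL h hko z).2 hzT)
    rw [e3]
    simp

/-! ### Polynomials and the Boolean convolution -/

/-- the first inputs that are multiplied by a one of `t` in the output `k` -/
def partners (t : Fin n → Bool) (k : ℕ) : Finset (Fin n ⊕ Fin n) :=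
  (univ.filter fun q : Fin n × Fin n => (q.1 : ℕ) + q.2 = k ∧ t q.2 = true).image
    fun q => Sum.inl q.1

theorem mem_partners {t : Fin n → Bool} {k : ℕ} {b : Fin n} :
    Sum.inl b ∈ partners t k ↔ ∃ j : Fin n, (b : ℕ) + j = k ∧ t j = true := by
  rw [partners, mem_image]
  constructor
  · rintro ⟨q, hq, hqb⟩
    obtain ⟨-, h1, h2⟩ := mem_filter.1 hq
    have h3 := Sum.inl.inj hqb
    exact ⟨q.2, by rw [← h3]; exact h1, h2⟩
  · rintro ⟨j, h1, h2⟩
    exact ⟨(b, j), mem_filter.2 ⟨mem_univ _, h1, h2⟩, rfl⟩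

theorem poly_val {C : Circuit (Fin n ⊕ Fin n) (Fin (2 * n))} (hC : C.MulPoly)
    (y : Fin n ⊕ Fin n → Bool) (t : Fin n → Bool) (hy : ∀ b, y (Sum.inr b) = t b)
    (k : Fin (2 * n)) :
    C.val y (C.out k) = true ↔ Odd ((partners t k).filter fun w => y w = true).card := by
  have e0 : y = two (fun b => y (Sum.inl b)) t := by
    funext w
    rcases w with b | b
    · rfl
    · exact hy b
  have e1 : ((partners t k).filter fun w => y w = true).card =
      (univ.filter fun i : Fin n × Fin n =>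
        (i.1 : ℕ) + i.2 = k ∧ y (Sum.inl i.1) = true ∧ t i.2 = true).card := by
    rw [partners, filter_image, filter_filter, card_image_of_injOn]
    · congr 1
      refine filter_congr fun q _ => ?_
      tauto
    · intro q hq r hr hqr
      obtain ⟨-, ⟨h1, -⟩, -⟩ := mem_filter.1 (mem_coe.1 hq)
      obtain ⟨-, ⟨h2, -⟩, -⟩ := mem_filter.1 (mem_coe.1 hr)
      have h3 : q.1 = r.1 := Sum.inl.inj hqr
      refine Prod.ext h3 (Fin.ext ?_)
      rw [h3] at h1
      omega
  rw [e1]
  conv_lhs => rw [e0]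
  exact hC _ _ _

theorem conv_val {C : Circuit (Fin n ⊕ Fin n) (Fin (2 * n))} (hC : C.Conv)
    (y : Fin n ⊕ Fin n → Bool) (t : Fin n → Bool) (hy : ∀ b, y (Sum.inr b) = t b)
    (k : Fin (2 * n)) :
    C.val y (C.out k) = true ↔ ∃ w ∈ partners t k, y w = true := by
  have e0 : y = two (fun b => y (Sum.inl b)) t := by
    funext w
    rcases w with b | b
    · rfl
    · exact hy b
  conv_lhs => rw [e0]
  rw [hC]
  constructor
  · rintro ⟨i, j, h1, h2, h3⟩
    exact ⟨Sum.inl i, mem_partners.2 ⟨j, h1, h3⟩, h2⟩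
  · rintro ⟨w, hw, h2⟩
    obtain ⟨q, hq, rfl⟩ := mem_image.1 hw
    obtain ⟨-, h1, h3⟩ := mem_filter.1 hq
    exact ⟨q.1, q.2, h1, h2, h3⟩

/-- flipping a variable changes a parity -/
theorem odd_flip {ι : Type} [DecidableEq ι] (B : Finset ι) (x : ι → Bool) {i : ι} (hi : i ∈ B) :
    (Odd (B.filter fun j => flipAt x i j = true).card) ↔
      ¬ Odd (B.filter fun j => x j = true).card := by
  have h3 : ∀ b : Bool, B.filter (fun j => Function.update x i b j = true) =
      if b then insert i ((B.erase i).filter fun j => x j = true)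
      else (B.erase i).filter fun j => x j = true := by
    intro b
    ext j
    by_cases hj : j = i
    · subst hj
      cases b <;> simp [hi]
    · cases b <;> simp [hj]
  have h4 := h3 (x i)
  have h5 := h3 (!x i)
  rw [Function.update_eq_self] at h4
  unfold flipAt
  rw [h4, h5]
  have h6 : i ∉ (B.erase i).filter fun j => x j = true := by simp
  generalize x i = b
  cases b
  · simp only [Bool.not_false, if_true, Bool.false_eq_true, if_false]
    rw [card_insert_of_notMem h6, Nat.odd_add_one]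
  · simp only [Bool.not_true, if_true, Bool.false_eq_true, if_false]
    rw [card_insert_of_notMem h6, Nat.odd_add_one, not_not]

theorem partners_iff [NeZero m] (h : 1 * m ≤ n) (h2 : 2 * m ≤ n) {o : Fin (2 * n)}
    (ho : o ∈ outs n 1 m) {w : Fin n ⊕ Fin n} (hw : w ∈ univ.map (inp one_pos h)) :
    w ∈ partners (tvec n 1 m p) o ↔ w ∈ setA one_pos h p o := by
  obtain ⟨k, hk, hk2, hko⟩ := mem_outs.1 ho
  obtain ⟨z, -, rfl⟩ := mem_map.1 hw
  rw [mem_setA one_pos h hko z]
  have hz := ZMod.val_lt z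
  have e1 : inp one_pos h z = Sum.inl ⟨1 * z.val, by omega⟩ := rfl
  rw [e1, mem_partners, ← hko]
  have e2 : (((k - z.val : ℕ)) : ZMod m) = (k : ZMod m) - z := by
    rw [Nat.cast_sub (by omega), ZMod.natCast_zmod_val]
  constructor
  · rintro ⟨j, h3, h4⟩
    simp only [one_mul] at h3
    rw [tvec, decide_eq_true_iff] at h4
    obtain ⟨j', h5, h6⟩ := h4
    rw [per, mem_filter, mem_range] at h5
    have h7 : j' = k - z.val := by omega
    rw [← e2, ← h7]
    exact h5.2
  · intro h3
    refine ⟨⟨k - z.val, by omega⟩, by simp only [one_mul]; omega, ?_⟩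
    rw [tvec, decide_eq_true_iff]
    refine ⟨k - z.val, ?_, one_mul _⟩
    rw [per, mem_filter, mem_range]
    exact ⟨by omega, by rw [e2]; exact h3⟩

/-- **Multiplication of polynomials over the field with two elements.** -/
theorem mul_poly (n d : ℕ) (hd : 1 ≤ d) (hn : 32 * (d + 1) ^ 2 ≤ n) :
    ∃ (t : Fin n → Bool) (K0 : Finset (Fin (2 * n))), K0.card = n / 2 ∧
      ∀ C : Circuit (Fin n ⊕ Fin n) (Fin (2 * n)), C.MulPoly → ∀ (x : Fin n → Bool), ∀ K ⊆ K0,
        (∀ k ∈ K, C.NoHazard (two x t) d k) →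
        (d + 1) * K.card ≤ C.wires ∧ ((∀ g, C.ar g ≤ 2) → d * K.card ≤ C.size) := by
  set m := n / 2 with hmdef
  have hm0 : 2 * (1 * m) ≤ n := by omega
  obtain ⟨p, hp, hp2, hpd, hpd2⟩ := exists_prime' d hd
  have hm : 4 * p ^ 2 ≤ m := by
    rw [hmdef, Nat.le_div_iff_mul_le (by omega)]
    have h1 : p ^ 2 ≤ (2 * (d + 1)) ^ 2 := Nat.pow_le_pow_left hpd2 2
    calc 4 * p ^ 2 * 2 ≤ 4 * (2 * (d + 1)) ^ 2 * 2 :=
          Nat.mul_le_mul_right _ (Nat.mul_le_mul_left _ h1)
      _ = 32 * (d + 1) ^ 2 := by ring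
      _ ≤ n := hn
  have hmpos : 0 < m := by
    have : 0 < p ^ 2 := by have := hp.pos; positivity
    omega
  have : NeZero m := ⟨hmpos.ne'⟩
  have h : 1 * m ≤ n := by omega
  refine ⟨tvec n 1 m p, outs n 1 m, card_outs one_pos hm0, fun C hC x K hK hx => ?_⟩
  have hinter : ∀ k, setA one_pos h p k ∩ univ.map (inp one_pos h) = setA one_pos h p k :=
    fun k => inter_eq_left.2 (setA_subset one_pos h k)
  have hb := C.hazard_bound (two x (tvec n 1 m p)) (univ.map (inp one_pos h)) K
    (setA one_pos h p) (fun _ => d) (le_refl 1)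
    (fun k _ => by rw [hinter, card_setA one_pos h hp hm]; omega)
    (fun S hS => mult_setA one_pos h hp hp2 hm hK S hS) (fun o ho i hi => ?_) (fun _ _ => hd)
    (fun o ho U hUN hU hUA => ?_)
  · simp only [hinter, card_setA one_pos h hp hm, one_mul] at hb
    have e1 : min (p - 1) (d + 1) = d + 1 := by omega
    have e2 : min (p - 1 - 1) d = d := by omega
    simp only [e1, e2, sum_const, smul_eq_mul] at hb
    refine ⟨by rw [Nat.mul_comm]; exact hb.1, fun h2 => by rw [Nat.mul_comm]; exact hb.2 h2⟩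
  · have hiN := setA_subset one_pos h o hi
    have hiB := (partners_iff (p := p) h (by omega) (hK ho) hiN).2 hi
    have h1 := poly_val hC (flipAt (two x (tvec n 1 m p)) i) (tvec n 1 m p) (fun b => by
      obtain ⟨z, -, rfl⟩ := mem_map.1 hiN
      rw [flipAt, Function.update_of_ne (by simp [inp])]
      rfl) o
    have h2 := poly_val hC (two x (tvec n 1 m p)) (tvec n 1 m p) (fun b => rfl) o
    rw [odd_flip _ _ hiB] at h1
    intro hcon
    rw [hcon, h2] at h1
    tauto
  · refine fun hn => hx o ho U hU ⟨fun y hy => ?_, hn⟩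
    rw [Bool.eq_iff_iff, poly_val hC y (tvec n 1 m p) (fun b => by
      have hbU : Sum.inr b ∉ U := by
        intro hbU
        obtain ⟨z, -, hz⟩ := mem_map.1 (hUN hbU)
        exact absurd hz (by simp [inp])
      rw [hy _ hbU]
      rfl) o, poly_val hC (two x (tvec n 1 m p)) (tvec n 1 m p) (fun b => rfl) o]
    have h7 : (partners (tvec n 1 m p) o).filter (fun w => y w = true) =
        (partners (tvec n 1 m p) o).filter (fun w => two x (tvec n 1 m p) w = true) := by
      refine filter_congr fun w hw => ?_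
      have hwU : w ∉ U := by
        intro hwU
        exact disjoint_left.1 hUA hwU
          ((partners_iff (p := p) h (by omega) (hK ho) (hUN hwU)).1 hw)
      rw [hy w hwU]
    rw [h7]

/-- **The Boolean convolution and few changes.** -/
theorem conv_changes (n d : ℕ) (hd : 1 ≤ d) (hn : 32 * (d + 1) ^ 2 ≤ n)
    (C : Circuit (Fin n ⊕ Fin n) (Fin (2 * n))) (hC : C.Conv) (T : ℕ) (hT : C.ChangesLE T) :
    (d + 1) * (n / 2) ≤ C.monoWires + (d + 1) * (2 * (d + 1) * (d * T)) ∧
      ((∀ g ∈ C.monoGates, C.ar g ≤ 2) →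
        d * (n / 2) ≤ C.monoGates.card + d * (2 * (d + 1) * (d * T))) := by
  set m := n / 2 with hmdef
  have hm0 : 2 * (1 * m) ≤ n := by omega
  obtain ⟨p, hp, hp2, hpd, hpd2⟩ := exists_prime' d hd
  have hm : 4 * p ^ 2 ≤ m := by
    rw [hmdef, Nat.le_div_iff_mul_le (by omega)]
    have h1 : p ^ 2 ≤ (2 * (d + 1)) ^ 2 := Nat.pow_le_pow_left hpd2 2
    calc 4 * p ^ 2 * 2 ≤ 4 * (2 * (d + 1)) ^ 2 * 2 :=
          Nat.mul_le_mul_right _ (Nat.mul_le_mul_left _ h1)
      _ = 32 * (d + 1) ^ 2 := by ring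
      _ ≤ n := hn
  have hmpos : 0 < m := by
    have : 0 < p ^ 2 := by have := hp.pos; positivity
    omega
  have : NeZero m := ⟨hmpos.ne'⟩
  have h : 1 * m ≤ n := by omega
  have hinlr : ∀ w ∈ univ.map (inp one_pos h), ∃ b, w = Sum.inl b := by
    intro w hw
    obtain ⟨z, -, rfl⟩ := mem_map.1 hw
    exact ⟨_, rfl⟩
  have hb := C.changes_bound ((univ.filter fun b => tvec n 1 m p b = true).image Sum.inr)
    (univ.map (inp one_pos h)) (outs n 1 m) (setA one_pos h p) d (p - 1) T (le_refl 1)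
    (fun k _ => by rw [card_setA one_pos h hp hm]; omega)
    (fun k _ => setA_subset one_pos h k)
    (fun S hS => mult_setA one_pos h hp hp2 hm (Subset.refl _) S hS)
    (fun i hi => by
      obtain ⟨z, -, rfl⟩ := mem_map.1 hi
      exact degree_setA one_pos h hp hm z) hd
    (fun z hz o ho => by
      rw [conv_val hC _ (tvec n 1 m p) (fun b => by
        rw [ind, Bool.eq_iff_iff, decide_eq_true_iff, mem_union]
        constructor
        · rintro (h1 | h1)
          · obtain ⟨b', hb', hbb⟩ := mem_image.1 h1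
            rw [← Sum.inr.inj hbb]
            exact (mem_filter.1 hb').2
          · obtain ⟨b', hb'⟩ := hinlr _ (hz h1)
            exact absurd hb' (by simp)
        · intro h1
          exact Or.inl (mem_image_of_mem _ (mem_filter.2 ⟨mem_univ _, h1⟩))) o]
      constructor
      · rintro ⟨w, hw, hwz⟩
        rw [ind, decide_eq_true_iff, mem_union] at hwz
        rcases hwz with h1 | h1
        · exfalso
          obtain ⟨q, -, hq⟩ := mem_image.1 hw
          obtain ⟨b', -, hb'⟩ := mem_image.1 h1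
          rw [← hq] at hb'
          exact absurd hb' (by simp)
        · exact ⟨w, (partners_iff (p := p) h (by omega) ho (hz h1)).1 hw, h1⟩
      · rintro ⟨w, hw, hwz⟩
        refine ⟨w, (partners_iff (p := p) h (by omega) ho (hz hwz)).2 hw, ?_⟩
        rw [ind, decide_eq_true_iff, mem_union]
        exact Or.inr hwz) hT
  simp only [card_setA one_pos h hp hm, one_mul] at hb
  have e1 : min (p - 1) (d + 1) = d + 1 := by omega
  have e2 : min (p - 1 - 1) d = d := by omega
  simp only [e1, e2, sum_const, smul_eq_mul, card_outs one_pos hm0] at hb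
  have e3 : (p - 1) * (d * T) ≤ 2 * (d + 1) * (d * T) := Nat.mul_le_mul_right _ (by omega)
  refine ⟨?_, fun h2 => ?_⟩
  · calc (d + 1) * m = m * (d + 1) := by ring
      _ ≤ _ := hb.1
      _ ≤ _ := Nat.add_le_add_left (Nat.mul_le_mul_left _ e3) _
  · calc d * m = m * d := by ring
      _ ≤ _ := hb.2 h2
      _ ≤ _ := Nat.add_le_add_left (Nat.mul_le_mul_left _ e3) _

end Pool.Agent.HazConv
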