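import Pool.Agent.Lib_MP_22d2c8_few.MulFew
import Pool.Agent.Lib_MP_22d2c8_hzc.Conv

/-!
# Multiplication of polynomials over the field with two elements: few hazards (helper46)
-/

set_option autoImplicit false

namespace Pool.Agent.Lib_MP_22d2c8_hz

open Finset
open Pool.Agent.HazConv (per partners mem_partners poly_val odd_flip)

theorem size_half {n r M : ℕ} (hr : 1 ≤ r) (hM : 1 ≤ M)
    (hn : 2 ^ 20 * M * r ^ 2 * (Nat.log 2 n + 1) ≤ n) :
    2 ^ 19 * (M * r ^ 2 * (Nat.log 2 n + 1)) ≤ n / 2 ∧ 2 ^ 19 ≤ n / 2 ∧ n ≤ 4 * (n / 2) := by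
  have h1 : 1 ≤ M * r ^ 2 * (Nat.log 2 n + 1) :=
    Nat.mul_pos (Nat.mul_pos hM (by positivity)) (by omega)
  have h2 : 2 ^ 20 * (M * r ^ 2 * (Nat.log 2 n + 1)) ≤ n := by
    calc _ = 2 ^ 20 * M * r ^ 2 * (Nat.log 2 n + 1) := by ring
      _ ≤ n := hn
  generalize M * r ^ 2 * (Nat.log 2 n + 1) = X at h1 h2 ⊢
  omega

/-- The choice of the parameters. -/
theorem params_half {n r M p : ℕ} (hr : 1 ≤ r) (hM : 1 ≤ M)
    (hn : 2 ^ 20 * M * r ^ 2 * (Nat.log 2 n + 1) ≤ n) (hp3 : 3 ≤ p) (hp : n / 2 ≤ 64 * p ^ 2) :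
    32 ≤ 2 * Nat.log 2 n + 4 ∧
      256 * (r + 1) ^ 2 * ((2 * Nat.log 2 n + 4) * M) < (p - 1) ^ 2 := by
  obtain ⟨h1, h2, h3⟩ := size_half hr hM hn
  have hn2 : 2 ^ 19 ≤ n := h2.trans (Nat.div_le_self _ _)
  have hlog : 19 ≤ Nat.log 2 n := by
    calc 19 = Nat.log 2 (2 ^ 19) := (Nat.log_pow (by norm_num) 19).symm
      _ ≤ Nat.log 2 n := Nat.log_mono_right hn2
  refine ⟨by omega, ?_⟩
  obtain ⟨q, rfl⟩ : ∃ q, p = q + 1 := ⟨p - 1, by omega⟩
  simp only [Nat.add_sub_cancel]
  have hX1 : 1 ≤ M * r ^ 2 := Nat.mul_pos hM (by positivity)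
  have h4 : 2 ^ 19 * (M * r ^ 2 * (Nat.log 2 n + 1)) ≤ 64 * (q + 1) ^ 2 := h1.trans hp
  have h8 : 20 ≤ M * r ^ 2 * (Nat.log 2 n + 1) := by
    calc 20 = 1 * 20 := rfl
      _ ≤ _ := Nat.mul_le_mul hX1 (by omega)
  have h5 : 400 * (q + 1) ^ 2 ≤ 441 * q ^ 2 := by
    have h9 : 400 ^ 2 ≤ (q + 1) ^ 2 := by
      have h10 : 2 ^ 19 * 20 ≤ 64 * (q + 1) ^ 2 := le_trans (Nat.mul_le_mul_left _ h8) h4
      omega
    have h11 : 400 ≤ q + 1 := by
      by_contra h
      have : (q + 1) ^ 2 < 400 ^ 2 := Nat.pow_lt_pow_left (by omega) (by norm_num)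
      omega
    obtain ⟨u, rfl⟩ : ∃ u, q = 399 + u := ⟨q - 399, by omega⟩
    nlinarith
  have h6 : 256 * (r + 1) ^ 2 * ((2 * Nat.log 2 n + 4) * M) ≤
      2560 * (M * r ^ 2 * (Nat.log 2 n + 1)) := by
    have h9 : (r + 1) ^ 2 ≤ 4 * r ^ 2 := by nlinarith
    have h10 : 2 * (2 * Nat.log 2 n + 4) ≤ 5 * (Nat.log 2 n + 1) := by omega
    calc 256 * (r + 1) ^ 2 * ((2 * Nat.log 2 n + 4) * M)
        ≤ 256 * (4 * r ^ 2) * ((2 * Nat.log 2 n + 4) * M) :=
          Nat.mul_le_mul_right _ (Nat.mul_le_mul_left _ h9)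
      _ = 512 * (M * r ^ 2) * (2 * (2 * Nat.log 2 n + 4)) := by ring
      _ ≤ 512 * (M * r ^ 2) * (5 * (Nat.log 2 n + 1)) := Nat.mul_le_mul_left _ h10
      _ = _ := by ring
  omega

/-- the second factor -/
def yvec (n : ℕ) {m : ℕ} (T : Finset (ZMod m)) : Fin n → Bool :=
  fun b => decide ((b : ℕ) ∈ per m T)

theorem mem_partners_yvec {n m : ℕ} [NeZero m] (h2 : 2 * m ≤ n) (T : Finset (ZMod m))
    (z k : ZMod m) (b : Fin n) (hb : (b : ℕ) = z.val) :
    Sum.inl b ∈ partners (yvec n T) (m + k.val) ↔ k - z ∈ T := by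
  have hz := ZMod.val_lt z
  have hk := ZMod.val_lt k
  have e1 : ((m + k.val - z.val : ℕ) : ZMod m) = k - z := by
    rw [Nat.cast_sub (by omega)]
    simp
  rw [mem_partners]
  constructor
  · rintro ⟨j, h3, h4⟩
    rw [yvec, decide_eq_true_iff, per, mem_filter] at h4
    rw [← e1, ← hb, ← h3, Nat.add_sub_cancel_left]
    exact h4.2
  · intro h3
    refine ⟨⟨m + k.val - z.val, by omega⟩, by simp only; omega, ?_⟩
    rw [yvec, decide_eq_true_iff, per, mem_filter, mem_range]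
    exact ⟨by simp only; omega, by rw [e1]; exact h3⟩

/-- The bound for a weighted number of hazards. -/
theorem poly_few_sum {n r M : ℕ} (hr : 1 ≤ r) (hM : 1 ≤ M)
    (hn : 2 ^ 20 * M * r ^ 2 * (Nat.log 2 n + 1) ≤ n) :
    ∃ y : Fin n → Bool, ∀ C : Circuit (Fin n ⊕ Fin n) (Fin (2 * n)), C.MulPoly →
      ∀ x : Fin n → Bool,
      (∑ i ∈ Icc 1 r, (C.hazards x y i : ℝ) * (1 / (M : ℝ)) ^ i ≤ (n : ℝ) / 32) →
      n * (r + 1) ≤ 8 * C.wires ∧ ((∀ g, C.ar g ≤ 2) → n * r ≤ 8 * C.size) := by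
  classical
  obtain ⟨hm1, hm2, hm3⟩ := size_half hr hM hn
  set m := n / 2 with hm
  have hnm : 2 * m ≤ n := Nat.mul_div_le n 2
  obtain ⟨p, hp, hp2, hpm, hpm2⟩ := HazConv2.exists_prime m (by omega)
  have hp3 : 3 ≤ p := by
    have := hp.two_le
    omega
  obtain ⟨hq, hbig⟩ := params_half hr hM hn hp3 hpm2
  set q := 2 * Nat.log 2 n + 4 with hqdef
  obtain ⟨t, ht1, ht2, ht3, ht4⟩ := Lib_MP_22d2c8_few.exists_s (p := p) (a := q) (M := M)
    (r := r + 1) (by omega) (by nlinarith) hbig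
  have htp : t < p := by omega
  have : NeZero m := ⟨by omega⟩
  set T := HazConv2.convSet p m t with hT
  refine ⟨yvec n T, fun C hC x hsum => ?_⟩
  set y := yvec n T with hy
  -- the grid and the outputs
  have hgridlt : ∀ i : ZMod m, i.val < n := by
    intro i
    have h1 := ZMod.val_lt i
    omega
  set grid : ZMod m → Fin n ⊕ Fin n := fun i => Sum.inl ⟨i.val, hgridlt i⟩ with hgrid
  have hgridinj : Function.Injective grid := by
    intro i j h
    simp only [hgrid, Sum.inl.injEq, Fin.mk.injEq] at h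
    exact ZMod.val_injective m h
  have hidxlt : ∀ k : ZMod m, m + k.val < 2 * n := by
    intro k
    have h1 := ZMod.val_lt k
    omega
  set idx : ZMod m → Fin (2 * n) := fun k => ⟨m + k.val, hidxlt k⟩ with hidx
  have hidxinj : Function.Injective idx := by
    intro i j h
    simp only [hidx, Fin.mk.injEq] at h
    exact ZMod.val_injective m (by omega)
  set A : ZMod m → Finset (Fin n ⊕ Fin n) := fun k => (HazConv2.outSet p m t k).image grid with hA
  set X0 : Finset (Fin n ⊕ Fin n) := univ.image grid with hX0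
  have hmemA : ∀ k i, grid i ∈ A k ↔ k - i ∈ T := by
    intro k i
    rw [hA]
    simp only [mem_image]
    constructor
    · rintro ⟨j, hj, h⟩
      rw [← hgridinj h]
      exact HazConv2.mem_outSet.1 hj
    · intro h
      exact ⟨i, HazConv2.mem_outSet.2 h, rfl⟩
  have hcardA : ∀ k, (A k).card = (p - 1) * t := by
    intro k
    rw [hA]
    simp only
    rw [card_image_of_injective _ hgridinj, HazConv2.card_outSet hp hpm htp]
  -- the partners
  have hpart : ∀ k, ∀ w ∈ X0, w ∈ partners y (idx k : ℕ) ↔ w ∈ A k := by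
    intro k w hw
    obtain ⟨z, -, rfl⟩ := mem_image.1 hw
    rw [hmemA]
    exact mem_partners_yvec hnm T z k ⟨z.val, hgridlt z⟩ rfl
  have hinr : ∀ b, (Sum.inr b : Fin n ⊕ Fin n) ∉ X0 := by
    intro b hb
    obtain ⟨z, -, hz⟩ := mem_image.1 hb
    simp [hgrid] at hz
  have hAX : ∀ k, A k ⊆ X0 := fun k => image_subset_image (subset_univ _)
  set Ko : Finset (Fin (2 * n)) := univ.image idx with hKo
  have hKcard : Ko.card = m := by
    rw [hKo, card_image_of_injective _ hidxinj, card_univ, ZMod.card]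
  -- the inverse of `idx`
  set dec : Fin (2 * n) → ZMod m := Function.invFun idx with hdec
  have hdeci : ∀ k, dec (idx k) = k := Function.leftInverse_invFun hidxinj
  have hmain := C.few_hazards (two x y) Ko (fun o => A (dec o)) X0 ?_
    (M := M) (r := r) (t := 2 * t ^ 2) (q := q) (s := (p - 1) * t) hM hr
    (fun k _ => (hcardA _).ge) ?_ ?_ hq ht4 ?_ ?_
    (fun o => univ.filter fun z : Finset (Fin n ⊕ Fin n) =>
      z ⊆ X0 ∧ z.card ≤ r ∧ C.IsHazard (two x y) o z) ?_ ?_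
  · rw [hKcard] at hmain
    constructor
    · calc n * (r + 1) ≤ 4 * m * (r + 1) := Nat.mul_le_mul_right _ hm3
        _ = 4 * (m * (r + 1)) := by ring
        _ ≤ 4 * (2 * C.wires) := Nat.mul_le_mul_left _ hmain.1
        _ = 8 * C.wires := by ring
    · intro har
      calc n * r ≤ 4 * m * r := Nat.mul_le_mul_right _ hm3
        _ = 4 * (m * r) := by ring
        _ ≤ 4 * (2 * C.size) := Nat.mul_le_mul_left _ (hmain.2 har)
        _ = 8 * C.size := by ring
  · intro k _
    exact hAX _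
  · intro o ho o' ho' hoo
    obtain ⟨k, -, rfl⟩ := mem_image.1 ho
    obtain ⟨l, -, rfl⟩ := mem_image.1 ho'
    have hkl : k ≠ l := fun h => hoo (by rw [h])
    rw [hdeci, hdeci, hA]
    simp only
    rw [← image_inter _ _ hgridinj, card_image_of_injective _ hgridinj]
    exact HazConv2.card_inter hp hp2 hpm htp hkl
  · rw [hKcard]
    exact Lib_MP_22d2c8_few.num_bound (Nat.div_le_self _ _) le_rfl ht3
  · -- an input of `A k` changes the output
    intro o ho v hv
    obtain ⟨k, -, rfl⟩ := mem_image.1 ho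
    rw [hdeci] at hv
    have hvX := hAX k hv
    have hvB := (hpart k v hvX).2 hv
    have h1 := poly_val hC (flipAt (two x y) v) y (fun b => by
      have hne : (Sum.inr b : Fin n ⊕ Fin n) ≠ v := fun h => hinr b (h ▸ hvX)
      rw [flipAt, Function.update_of_ne hne]
      rfl) (idx k)
    have h2 := poly_val hC (two x y) y (fun b => rfl) (idx k)
    rw [odd_flip _ _ hvB] at h1
    intro hcon
    rw [hcon, h2] at h1
    tauto
  · -- the outputs are constant off `A k`
    intro o ho z hzX hdis hzr x' hx'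
    obtain ⟨k, -, rfl⟩ := mem_image.1 ho
    rw [hdeci] at hdis
    rw [Bool.eq_iff_iff, poly_val hC x' y (fun b => by
      rw [hx' _ fun h => hinr b (hzX h)]
      rfl) (idx k), poly_val hC (two x y) y (fun b => rfl) (idx k)]
    have h7 : (partners y (idx k : ℕ)).filter (fun w => x' w = true) =
        (partners y (idx k : ℕ)).filter (fun w => two x y w = true) := by
      refine filter_congr fun w hw => ?_
      have hwz : w ∉ z := fun hwz =>
        disjoint_left.1 hdis hwz ((hpart k w (hzX hwz)).1 hw)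
      rw [hx' w hwz]
    rw [h7]
  · intro k _ z hzX hzr hz
    exact mem_filter.2 ⟨mem_univ _, hzX, hzr, hz⟩
  · -- the number of hazards
    rw [hKcard]
    have hX0b : ∀ z ⊆ X0, ∀ v ∈ z, ∃ b, v = Sum.inl b := by
      intro z hz v hv
      obtain ⟨i, -, rfl⟩ := mem_image.1 (hz hv)
      exact ⟨_, rfl⟩
    have h1 : ∑ o ∈ Ko, ∑ z ∈ univ.filter (fun z : Finset (Fin n ⊕ Fin n) =>
        z ⊆ X0 ∧ z.card ≤ r ∧ C.IsHazard (two x y) o z), (1 / (M : ℝ)) ^ z.card ≤
        ∑ i ∈ Icc 1 r, (C.hazards x y i : ℝ) * (1 / (M : ℝ)) ^ i := by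
      have h2 : ∑ o ∈ Ko, ∑ z ∈ univ.filter (fun z : Finset (Fin n ⊕ Fin n) =>
          z ⊆ X0 ∧ z.card ≤ r ∧ C.IsHazard (two x y) o z), (1 / (M : ℝ)) ^ z.card =
          ∑ u ∈ Ko.sigma (fun o => univ.filter
            (fun z : Finset (Fin n ⊕ Fin n) =>
              z ⊆ X0 ∧ z.card ≤ r ∧ C.IsHazard (two x y) o z)),
            (1 / (M : ℝ)) ^ (toX u.2).card := by
        rw [sum_sigma]
        refine sum_congr rfl fun k _ => sum_congr rfl fun z hz => ?_
        rw [card_toX (hX0b z (mem_filter.1 hz).2.1)]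
      rw [h2]
      set P : ℕ → Fin (2 * n) × Finset (Fin n) → Prop := fun i u => u.2.card = i ∧
        C.IsHazard (two x y) u.1 (u.2.map Function.Embedding.inl) with hP
      have h3 : ∀ i ∈ Icc 1 r, (C.hazards x y i : ℝ) * (1 / (M : ℝ)) ^ i =
          ∑ u ∈ univ.filter (P i), (1 / (M : ℝ)) ^ u.2.card := by
        intro i _
        rw [sum_congr rfl (fun u hu => by rw [(mem_filter.1 hu).2.1] :
          ∀ u ∈ univ.filter (P i), (1 / (M : ℝ)) ^ u.2.card =
              (1 / (M : ℝ)) ^ i), sum_const, nsmul_eq_mul, Circuit.hazards]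
      rw [sum_congr rfl h3]
      have h4 : ∑ i ∈ Icc 1 r, ∑ u ∈ univ.filter (P i), (1 / (M : ℝ)) ^ u.2.card =
          ∑ u ∈ univ.filter (fun u : Fin (2 * n) × Finset (Fin n) =>
            u.2.card ∈ Icc 1 r ∧ C.IsHazard (two x y) u.1 (u.2.map Function.Embedding.inl)),
            (1 / (M : ℝ)) ^ u.2.card := by
        rw [← sum_fiberwise_of_maps_to (s := univ.filter
          (fun u : Fin (2 * n) × Finset (Fin n) =>
            u.2.card ∈ Icc 1 r ∧ C.IsHazard (two x y) u.1 (u.2.map Function.Embedding.inl)))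
          (t := Icc 1 r) (g := fun u => u.2.card) (fun u hu => (mem_filter.1 hu).2.1)]
        refine sum_congr rfl fun i hi => ?_
        congr 1
        ext u
        simp only [mem_filter, mem_univ, true_and, hP]
        constructor
        · rintro ⟨h5, h6⟩
          exact ⟨⟨by rw [h5]; exact hi, h6⟩, h5⟩
        · rintro ⟨⟨-, h6⟩, h5⟩
          exact ⟨h5, h6⟩
      rw [h4]
      rw [← sum_image (s := Ko.sigma (fun o => univ.filter
            (fun z : Finset (Fin n ⊕ Fin n) =>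
              z ⊆ X0 ∧ z.card ≤ r ∧ C.IsHazard (two x y) o z)))
            (g := fun u => ((u.1, toX u.2) : Fin (2 * n) × Finset (Fin n)))
            (f := fun u => (1 / (M : ℝ)) ^ u.2.card)]
      · refine sum_le_sum_of_subset_of_nonneg ?_ (fun _ _ _ => by positivity)
        intro u hu
        obtain ⟨⟨k, z⟩, hk, rfl⟩ := mem_image.1 hu
        have h5 := (mem_filter.1 (mem_sigma.1 hk).2).2
        simp only at h5
        refine mem_filter.2 ⟨mem_univ _, ?_, ?_⟩
        · simp only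
          rw [mem_Icc, card_toX (hX0b z h5.1)]
          refine ⟨?_, h5.2.1⟩
          rw [Nat.one_le_iff_ne_zero]
          intro h6
          rw [card_eq_zero] at h6
          rw [h6] at h5
          exact C.not_isHazard_empty _ _ h5.2.2
        · simp only
          rw [toX_map (hX0b z h5.1)]
          exact h5.2.2
      · rintro ⟨k, z⟩ hu ⟨k', z'⟩ hu' h
        have h5 := (mem_filter.1 (mem_sigma.1 (mem_coe.1 hu)).2).2
        have h6 := (mem_filter.1 (mem_sigma.1 (mem_coe.1 hu')).2).2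
        simp only at h5 h6
        simp only [Prod.mk.injEq] at h
        obtain ⟨h7, h8⟩ := h
        have h9 : z = z' := by
          rw [← toX_map (hX0b z h5.1), ← toX_map (hX0b z' h6.1), h8]
        rw [h7, h9]
    refine h1.trans (hsum.trans ?_)
    have h2 : (n : ℝ) ≤ 4 * m := by exact_mod_cast hm3
    linarith

/-- **Circuits for the multiplication of polynomials with few hazards.** -/
theorem poly_few {n r M : ℕ} (hr : 1 ≤ r) (hM : 1 ≤ M)
    (hn : 2 ^ 21 * M * r ^ 2 * (Nat.log 2 n + 1) ≤ n) :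
    ∃ y : Fin n → Bool, ∀ C : Circuit (Fin n ⊕ Fin n) (Fin (2 * n)), C.MulPoly →
      ∀ x : Fin n → Bool,
      (∀ i, 1 ≤ i → i ≤ r → 32 * C.hazards x y i ≤ n * M ^ i) →
      n * (r + 1) ≤ 8 * C.wires ∧ ((∀ g, C.ar g ≤ 2) → n * r ≤ 8 * C.size) := by
  obtain ⟨y, hy⟩ := poly_few_sum (n := n) (r := r) (M := 2 * M) hr (by omega)
    (le_trans (le_of_eq (by ring)) hn)
  refine ⟨y, fun C hC x hh => hy C hC x ?_⟩
  have hM0 : (0 : ℝ) < (M : ℝ) := by exact_mod_cast hM
  calc ∑ i ∈ Icc 1 r, (C.hazards x y i : ℝ) * (1 / ((2 * M : ℕ) : ℝ)) ^ i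
      ≤ ∑ i ∈ Icc 1 r, ((n : ℝ) / 32) * (1 / 2 : ℝ) ^ i := by
        refine sum_le_sum fun i hi => ?_
        rw [mem_Icc] at hi
        have h1 : (32 * C.hazards x y i : ℝ) ≤ n * M ^ i := by
          exact_mod_cast hh i hi.1 hi.2
        have h2 : (C.hazards x y i : ℝ) ≤ (n : ℝ) / 32 * M ^ i := by
          linarith
        calc (C.hazards x y i : ℝ) * (1 / ((2 * M : ℕ) : ℝ)) ^ i
            ≤ (n : ℝ) / 32 * M ^ i * (1 / ((2 * M : ℕ) : ℝ)) ^ i :=
              mul_le_mul_of_nonneg_right h2 (by positivity)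
          _ = (n : ℝ) / 32 * (1 / 2 : ℝ) ^ i := by
              rw [mul_assoc, ← mul_pow]
              congr 2
              push_cast
              field_simp
    _ = (n : ℝ) / 32 * (1 - (1 / 2) ^ r) := by
        rw [← mul_sum, sum_half_pow]
    _ ≤ (n : ℝ) / 32 := by
        have h1 : (0 : ℝ) < (1 / 2) ^ r := by positivity
        have h2 : (0 : ℝ) ≤ (n : ℝ) / 32 := by positivity
        nlinarith

end Pool.Agent.Lib_MP_22d2c8_hz
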