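import Mathlib

/-!
# Sets with few representations of every difference, in cyclic groups, second form (helper46)

For an odd prime `p`, `n ≥ 4 p ^ 2` and `s < p` the set `convSet p n s` of the residues
`2 p a + (x a ^ 2 mod p)`, `1 ≤ a < p`, `1 ≤ x ≤ s`, has `(p - 1) s` elements and every
nonzero difference occurs at most `2 s ^ 2` times. So the sets `k - convSet p n s` of the cyclic
convolution have small pairwise intersections. (The choice of the set is helper64's.)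
-/

set_option autoImplicit false

namespace Pool.Agent.HazConv2

/-- the integer behind a point -/
def ptN (p a x : ℕ) : ℕ := 2 * p * a + (x * a ^ 2) % p

/-- the point of `ZMod n` with parameters `a`, `x` -/
def pt (p n a x : ℕ) : ZMod n := ((ptN p a x : ℕ) : ZMod n)

/-- parameters -/
def params (p s : ℕ) : Finset (ℕ × ℕ) := Finset.Ico 1 p ×ˢ Finset.Icc 1 s

/-- the set -/
def convSet (p n s : ℕ) : Finset (ZMod n) := (params p s).image fun q => pt p n q.1 q.2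

theorem mem_params {p s : ℕ} {q : ℕ × ℕ} :
    q ∈ params p s ↔ (1 ≤ q.1 ∧ q.1 < p) ∧ (1 ≤ q.2 ∧ q.2 ≤ s) := by
  simp [params]

theorem ptN_lt {p a x : ℕ} (ha : a < p) : ptN p a x < 2 * p ^ 2 := by
  have hp : 0 < p := by omega
  have h1 : (x * a ^ 2) % p < p := Nat.mod_lt _ hp
  have h2 : 2 * p * a ≤ 2 * p * (p - 1) := Nat.mul_le_mul_left _ (by omega)
  have h3 : 2 * p * (p - 1) + 2 * p = 2 * p ^ 2 := by
    obtain ⟨r, rfl⟩ : ∃ r, p = r + 1 := ⟨p - 1, by omega⟩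
    simp only [Nat.add_sub_cancel]
    ring
  unfold ptN
  omega

/-- differences are determined as pairs of integers -/
theorem diff_eq {p n a x a' x' c y c' y' : ℕ} (ha : a < p) (ha' : a' < p) (hc : c < p)
    (hc' : c' < p) (hn : 4 * p ^ 2 ≤ n)
    (h : pt p n a x - pt p n a' x' = pt p n c y - pt p n c' y') :
    (a : ℤ) - a' = c - c' ∧
      (((x * a ^ 2) % p : ℕ) : ℤ) - ((x' * a' ^ 2) % p : ℕ) =
        ((y * c ^ 2) % p : ℕ) - ((y' * c' ^ 2) % p : ℕ) := by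
  have hp : 0 < p := by omega
  have h1 : ((ptN p a x + ptN p c' y' : ℕ) : ZMod n) = ((ptN p c y + ptN p a' x' : ℕ) : ZMod n) := by
    unfold pt at h
    push_cast
    linear_combination h
  rw [ZMod.natCast_eq_natCast_iff'] at h1
  have b1 := ptN_lt (x := x) ha
  have b2 := ptN_lt (x := y') hc'
  have b3 := ptN_lt (x := y) hc
  have b4 := ptN_lt (x := x') ha'
  rw [Nat.mod_eq_of_lt (by omega), Nat.mod_eq_of_lt (by omega)] at h1
  have m1 : (x * a ^ 2) % p < p := Nat.mod_lt _ hp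
  have m2 : (x' * a' ^ 2) % p < p := Nat.mod_lt _ hp
  have m3 : (y * c ^ 2) % p < p := Nat.mod_lt _ hp
  have m4 : (y' * c' ^ 2) % p < p := Nat.mod_lt _ hp
  unfold ptN at h1
  generalize (x * a ^ 2) % p = r1 at *
  generalize (x' * a' ^ 2) % p = r2 at *
  generalize (y * c ^ 2) % p = r3 at *
  generalize (y' * c' ^ 2) % p = r4 at *
  have h2 : 2 * p * (a + c') + (r1 + r4) = 2 * p * (c + a') + (r3 + r2) := by
    linarith [h1, mul_add (2 * p) a c', mul_add (2 * p) c a']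
  have h3 : a + c' = c + a' := by
    have e1 : (2 * p * (a + c') + (r1 + r4)) / (2 * p) = a + c' := by
      rw [Nat.mul_add_div (by omega), Nat.div_eq_of_lt (by omega), add_zero]
    have e2 : (2 * p * (c + a') + (r3 + r2)) / (2 * p) = c + a' := by
      rw [Nat.mul_add_div (by omega), Nat.div_eq_of_lt (by omega), add_zero]
    rw [← e1, ← e2, h2]
  have h4 : r1 + r4 = r3 + r2 := by
    rw [h3] at h2
    omega
  constructor
  · omega
  · omega

/-- reduction modulo `p` -/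
theorem cast_mod (p m : ℕ) : ((m % p : ℕ) : ZMod p) = (m : ZMod p) := by
  rw [ZMod.natCast_mod]

theorem natCast_inj {p a c : ℕ} (ha : a < p) (hc : c < p) (h : (a : ZMod p) = (c : ZMod p)) :
    a = c := by
  rw [ZMod.natCast_eq_natCast_iff'] at h
  rwa [Nat.mod_eq_of_lt ha, Nat.mod_eq_of_lt hc] at h

theorem pt_inj {p n s : ℕ} (hp : p.Prime) (hn : 4 * p ^ 2 ≤ n) (hs : s < p) :
    Set.InjOn (fun q : ℕ × ℕ => pt p n q.1 q.2) (params p s) := by
  rintro ⟨a, x⟩ hax ⟨c, y⟩ hcy h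
  rw [Finset.mem_coe, mem_params] at hax hcy
  simp only at hax hcy h
  have : Fact p.Prime := ⟨hp⟩
  have h1 := diff_eq (x := x) (x' := y) (y := y) (y' := y) hax.1.2 hcy.1.2 hcy.1.2 hcy.1.2 hn
    (by rw [h])
  obtain ⟨h2, h3⟩ := h1
  have hac : a = c := by omega
  subst hac
  have h4 : ((x * a ^ 2) % p : ℕ) = (y * a ^ 2) % p := by omega
  have h5 : ((x * a ^ 2 : ℕ) : ZMod p) = ((y * a ^ 2 : ℕ) : ZMod p) := by
    rw [← cast_mod p (x * a ^ 2), ← cast_mod p (y * a ^ 2), h4]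
  push_cast at h5
  have h6 : (a : ZMod p) ≠ 0 := by
    intro h0
    rw [ZMod.natCast_eq_zero_iff] at h0
    exact absurd (Nat.le_of_dvd (by omega) h0) (by omega)
  have h7 : (x : ZMod p) = (y : ZMod p) := mul_right_cancel₀ (pow_ne_zero 2 h6) h5
  have h8 := natCast_inj (by omega) (by omega) h7
  rw [h8]

theorem card_params (p s : ℕ) : (params p s).card = (p - 1) * s := by
  rw [params, Finset.card_product, Nat.card_Ico, Nat.card_Icc, Nat.add_sub_cancel]

theorem card_convSet {p n s : ℕ} (hp : p.Prime) (hn : 4 * p ^ 2 ≤ n) (hs : s < p) :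
    (convSet p n s).card = (p - 1) * s := by
  rw [convSet, Finset.card_image_of_injOn (pt_inj hp hn hs), card_params]

/-- the pairs of parameters with a given difference -/
def diffs (p n s : ℕ) (δ : ZMod n) : Finset ((ℕ × ℕ) × (ℕ × ℕ)) :=
  (params p s ×ˢ params p s).filter fun q => pt p n q.1.1 q.1.2 - pt p n q.2.1 q.2.2 = δ

/-- the key equation modulo `p` -/
theorem key_eq {p a x a' x' : ℕ} {u v : ℤ} (hu : (a : ℤ) - a' = u)
    (hv : (((x * a ^ 2) % p : ℕ) : ℤ) - ((x' * a' ^ 2) % p : ℕ) = v) :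
    ((x : ZMod p) - x') * (a' : ZMod p) ^ 2 + (2 * x * u) * a' + (x * (u : ZMod p) ^ 2 - v) =
      0 := by
  have h1 : ((x * a ^ 2 : ℕ) : ZMod p) - ((x' * a' ^ 2 : ℕ) : ZMod p) = (v : ZMod p) := by
    rw [← cast_mod p (x * a ^ 2), ← cast_mod p (x' * a' ^ 2)]
    rw [← hv, Int.cast_sub, Int.cast_natCast, Int.cast_natCast]
  have h2 : (a : ZMod p) = a' + u := by
    rw [← hu]
    push_cast
    ring
  push_cast at h1
  rw [h2] at h1
  linear_combination h1

/-- three distinct roots of a quadratic polynomial -/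
theorem no_three {F : Type*} [Field F] {A B C b₁ b₂ b₃ : F} (h12 : b₁ ≠ b₂) (h13 : b₁ ≠ b₃)
    (h23 : b₂ ≠ b₃) (h1 : A * b₁ ^ 2 + B * b₁ + C = 0) (h2 : A * b₂ ^ 2 + B * b₂ + C = 0)
    (h3 : A * b₃ ^ 2 + B * b₃ + C = 0) : A = 0 ∧ B = 0 ∧ C = 0 := by
  have e12 : A * (b₁ + b₂) + B = 0 := by
    have : (b₁ - b₂) * (A * (b₁ + b₂) + B) = 0 := by linear_combination h1 - h2
    exact (mul_eq_zero.1 this).resolve_left (sub_ne_zero.2 h12)
  have e13 : A * (b₁ + b₃) + B = 0 := by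
    have : (b₁ - b₃) * (A * (b₁ + b₃) + B) = 0 := by linear_combination h1 - h3
    exact (mul_eq_zero.1 this).resolve_left (sub_ne_zero.2 h13)
  have hA : A = 0 := by
    have : A * (b₂ - b₃) = 0 := by linear_combination e12 - e13
    exact (mul_eq_zero.1 this).resolve_right (sub_ne_zero.2 h23)
  have hB : B = 0 := by rw [hA] at e12; linear_combination e12
  refine ⟨hA, hB, ?_⟩
  rw [hA, hB] at h1
  linear_combination h1

theorem card_diffs {p n s : ℕ} (hp : p.Prime) (hp2 : p ≠ 2) (hn : 4 * p ^ 2 ≤ n)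
    (hs : s < p) (δ : ZMod n) (hδ : δ ≠ 0) :
    (diffs p n s δ).card ≤ 2 * s ^ 2 := by
  classical
  have : Fact p.Prime := ⟨hp⟩
  by_cases hne : (diffs p n s δ).Nonempty
  swap
  · rw [Finset.not_nonempty_iff_eq_empty] at hne
    rw [hne, Finset.card_empty]
    exact Nat.zero_le _
  obtain ⟨q0, hq0⟩ := hne
  obtain ⟨⟨a0, x0⟩, ⟨b0, y0⟩⟩ := q0
  simp only [diffs, Finset.mem_filter, Finset.mem_product, mem_params] at hq0
  obtain ⟨⟨⟨⟨ha0, ha0'⟩, hx0⟩, ⟨⟨hb0, hb0'⟩, hy0⟩⟩, hδ0⟩ := hq0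
  set u : ℤ := (a0 : ℤ) - b0 with hu
  set v : ℤ := (((x0 * a0 ^ 2) % p : ℕ) : ℤ) - ((y0 * b0 ^ 2) % p : ℕ) with hv
  have hp0 : 0 < p := hp.pos
  have hall : ∀ q ∈ diffs p n s δ, ((1 ≤ q.1.1 ∧ q.1.1 < p) ∧ (1 ≤ q.1.2 ∧ q.1.2 ≤ s)) ∧
      ((1 ≤ q.2.1 ∧ q.2.1 < p) ∧ (1 ≤ q.2.2 ∧ q.2.2 ≤ s)) ∧ (q.1.1 : ℤ) - q.2.1 = u ∧
      (((q.1.2 * q.1.1 ^ 2) % p : ℕ) : ℤ) - ((q.2.2 * q.2.1 ^ 2) % p : ℕ) = v := by
    rintro ⟨⟨a, x⟩, ⟨b, y⟩⟩ hq
    simp only [diffs, Finset.mem_filter, Finset.mem_product, mem_params] at hq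
    obtain ⟨⟨h1, h2⟩, h3⟩ := hq
    have h4 := diff_eq (x := x) (x' := y) (y := x0) (y' := y0) h1.1.2 h2.1.2 ha0' hb0' hn
      (by rw [h3, hδ0])
    exact ⟨h1, h2, h4.1, h4.2⟩
  have hp2' : (2 : ZMod p) ≠ 0 := by
    intro h0
    have h1 : ((2 : ℕ) : ZMod p) = 0 := by exact_mod_cast h0
    rw [ZMod.natCast_eq_zero_iff] at h1
    exact hp2 ((Nat.prime_dvd_prime_iff_eq hp Nat.prime_two).1 h1)
  -- u = 0 implies v ≠ 0 in ZMod p
  have huv : (u : ZMod p) = 0 → (v : ZMod p) ≠ 0 := by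
    intro h0 hv0
    rw [ZMod.intCast_zmod_eq_zero_iff_dvd] at h0 hv0
    have m1 : (x0 * a0 ^ 2) % p < p := Nat.mod_lt _ hp0
    have m2 : (y0 * b0 ^ 2) % p < p := Nat.mod_lt _ hp0
    have hu0 : u = 0 := by
      refine Int.eq_zero_of_abs_lt_dvd h0 ?_
      rw [abs_lt]
      constructor <;> omega
    have hv0' : v = 0 := by
      refine Int.eq_zero_of_abs_lt_dvd hv0 ?_
      rw [abs_lt]
      constructor <;> omega
    apply hδ
    rw [← hδ0]
    have e1 : a0 = b0 := by omega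
    have e2 : (x0 * a0 ^ 2) % p = (y0 * b0 ^ 2) % p := by omega
    unfold pt ptN
    rw [e2, e1, sub_self]
  have hmap : ∀ q ∈ diffs p n s δ, (q.1.2, q.2.2) ∈ Finset.Icc 1 s ×ˢ Finset.Icc 1 s := by
    intro q hq
    obtain ⟨h1, h2, _, _⟩ := hall q hq
    rw [Finset.mem_product, Finset.mem_Icc, Finset.mem_Icc]
    exact ⟨h1.2, h2.2⟩
  have key := Finset.card_le_mul_card_image_of_maps_to (f := fun q : (ℕ × ℕ) × (ℕ × ℕ) =>
    (q.1.2, q.2.2)) hmap 2 ?_
  · refine key.trans (le_of_eq ?_)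
    rw [Finset.card_product, Nat.card_Icc, Nat.add_sub_cancel]
    ring
  rintro ⟨x, y⟩ hxy
  rw [Finset.mem_product, Finset.mem_Icc, Finset.mem_Icc] at hxy
  simp only at hxy
  by_contra hcon
  push Not at hcon
  obtain ⟨q1, hq1, q2, hq2, q3, hq3, h12, h13, h23⟩ := Finset.two_lt_card.1 hcon
  rw [Finset.mem_filter] at hq1 hq2 hq3
  have hform : ∀ q ∈ diffs p n s δ, (q.1.2, q.2.2) = (x, y) →
      ((x : ZMod p) - y) * (q.2.1 : ZMod p) ^ 2 + (2 * x * u) * q.2.1 +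
        (x * (u : ZMod p) ^ 2 - v) = 0 := by
    rintro ⟨⟨a, x'⟩, ⟨b, y'⟩⟩ hq hqe
    simp only [Prod.mk.injEq] at hqe
    obtain ⟨rfl, rfl⟩ := hqe
    obtain ⟨_, _, h3, h4⟩ := hall _ hq
    exact key_eq h3 h4
  have hinj : ∀ q ∈ diffs p n s δ, ∀ r ∈ diffs p n s δ, (q.1.2, q.2.2) = (x, y) →
      (r.1.2, r.2.2) = (x, y) → (q.2.1 : ZMod p) = (r.2.1 : ZMod p) → q = r := by
    rintro ⟨⟨a, x'⟩, ⟨b, y'⟩⟩ hq ⟨⟨c, x''⟩, ⟨d, y''⟩⟩ hr hqe hre hbd
    simp only [Prod.mk.injEq] at hqe hre hbd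
    obtain ⟨rfl, rfl⟩ := hqe
    obtain ⟨rfl, rfl⟩ := hre
    obtain ⟨h1, h2, h3, h4⟩ := hall _ hq
    obtain ⟨h1', h2', h3', h4'⟩ := hall _ hr
    simp only at h1 h2 h3 h1' h2' h3'
    have e1 : b = d := natCast_inj (by omega) (by omega) hbd
    subst e1
    have e2 : a = c := by omega
    rw [e2]
  have b12 : (q1.2.1 : ZMod p) ≠ (q2.2.1 : ZMod p) := fun h =>
    h12 (hinj q1 hq1.1 q2 hq2.1 hq1.2 hq2.2 h)
  have b13 : (q1.2.1 : ZMod p) ≠ (q3.2.1 : ZMod p) := fun h =>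
    h13 (hinj q1 hq1.1 q3 hq3.1 hq1.2 hq3.2 h)
  have b23 : (q2.2.1 : ZMod p) ≠ (q3.2.1 : ZMod p) := fun h =>
    h23 (hinj q2 hq2.1 q3 hq3.1 hq2.2 hq3.2 h)
  obtain ⟨_, hB, hC⟩ := no_three b12 b13 b23 (hform q1 hq1.1 hq1.2) (hform q2 hq2.1 hq2.2)
    (hform q3 hq3.1 hq3.2)
  have hx0' : (x : ZMod p) ≠ 0 := by
    intro h0
    rw [ZMod.natCast_eq_zero_iff] at h0
    exact absurd (Nat.le_of_dvd (by omega) h0) (by omega)
  have hu0 : (u : ZMod p) = 0 := by
    rcases mul_eq_zero.1 hB with h | h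
    · rcases mul_eq_zero.1 h with h | h
      · exact absurd h hp2'
      · exact absurd h hx0'
    · exact h
  apply huv hu0
  rw [hu0] at hC
  linear_combination -hC

/-- pairs of points with a given difference -/
theorem card_diff_pairs {p n s : ℕ} (δ : ZMod n) :
    (((convSet p n s) ×ˢ (convSet p n s)).filter (fun q => q.1 - q.2 = δ)).card ≤
      (diffs p n s δ).card := by
  classical
  refine (Finset.card_le_card ?_).trans (Finset.card_image_le (s := diffs p n s δ)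
    (f := fun q => (pt p n q.1.1 q.1.2, pt p n q.2.1 q.2.2)))
  rintro ⟨t, t'⟩ ht
  simp only [Finset.mem_filter, Finset.mem_product, convSet, Finset.mem_image] at ht
  obtain ⟨⟨⟨q, hq, rfl⟩, ⟨r, hr, rfl⟩⟩, h⟩ := ht
  rw [Finset.mem_image]
  refine ⟨(q, r), ?_, rfl⟩
  simp only [diffs, Finset.mem_filter, Finset.mem_product]
  exact ⟨⟨hq, hr⟩, h⟩

/-- the summation sets of the outputs of the cyclic convolution with `convSet` -/
def outSet (p n s : ℕ) (k : ZMod n) : Finset (ZMod n) := (convSet p n s).image fun t => k - t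

theorem mem_outSet {p n s : ℕ} {k i : ZMod n} : i ∈ outSet p n s k ↔ k - i ∈ convSet p n s := by
  rw [outSet, Finset.mem_image]
  constructor
  · rintro ⟨t, ht, rfl⟩
    rwa [sub_sub_cancel]
  · intro h
    exact ⟨k - i, h, sub_sub_cancel _ _⟩

theorem card_outSet {p n s : ℕ} (hp : p.Prime) (hn : 4 * p ^ 2 ≤ n) (hs : s < p) (k : ZMod n) :
    (outSet p n s k).card = (p - 1) * s := by
  rw [outSet, Finset.card_image_of_injective _ (sub_right_injective (b := k)),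
    card_convSet hp hn hs]

theorem card_inter_le {p n s : ℕ} {k l : ZMod n} :
    (outSet p n s k ∩ outSet p n s l).card ≤ (diffs p n s (k - l)).card := by
  classical
  refine le_trans ?_ (card_diff_pairs (k - l))
  refine Finset.card_le_card_of_injOn (fun i => (k - i, l - i)) ?_ ?_
  · intro i hi
    rw [Finset.mem_coe, Finset.mem_inter, mem_outSet, mem_outSet] at hi
    simp only [Finset.coe_filter, Finset.mem_product, Set.mem_ofPred_eq]
    exact ⟨hi, by ring⟩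
  · intro i _ j _ h
    simp only [Prod.mk.injEq] at h
    exact sub_right_injective h.1

theorem card_inter {p n s : ℕ} (hp : p.Prime) (hp2 : p ≠ 2) (hn : 4 * p ^ 2 ≤ n) (hs : s < p)
    {k l : ZMod n} (hkl : k ≠ l) : (outSet p n s k ∩ outSet p n s l).card ≤ 2 * s ^ 2 :=
  card_inter_le.trans (card_diffs hp hp2 hn hs _ (sub_ne_zero.2 hkl))

/-- every input is in `(p - 1) s` of the sets -/
theorem card_degree {p n s : ℕ} [NeZero n] (hp : p.Prime) (hn : 4 * p ^ 2 ≤ n) (hs : s < p)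
    (i : ZMod n) : (Finset.univ.filter fun k : ZMod n => i ∈ outSet p n s k).card =
      (p - 1) * s := by
  classical
  rw [← card_convSet hp hn hs]
  refine Finset.card_nbij' (fun k => k - i) (fun t => t + i) ?_ ?_ ?_ ?_
  · intro k hk
    rw [Finset.mem_coe, Finset.mem_filter, mem_outSet] at hk
    exact Finset.mem_coe.2 hk.2
  · intro t ht
    rw [Finset.mem_coe, Finset.mem_filter, mem_outSet]
    refine ⟨Finset.mem_univ _, ?_⟩
    rw [add_sub_cancel_right]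
    exact Finset.mem_coe.1 ht
  · intro k _
    simp
  · intro t _
    simp

/-- a prime with `p ^ 2` of order `n` -/
theorem exists_prime (n : ℕ) (hn : 100 ≤ n) : ∃ p : ℕ, p.Prime ∧ p ≠ 2 ∧ 4 * p ^ 2 ≤ n ∧
    n ≤ 64 * p ^ 2 := by
  set m := Nat.sqrt n / 4 with hm
  have h1 : 10 ≤ Nat.sqrt n := by
    rw [Nat.le_sqrt]
    omega
  have hm1 : 2 ≤ m := by omega
  obtain ⟨p, hp, h2, h3⟩ := Nat.exists_prime_lt_and_le_two_mul m (by omega)
  have hs1 := Nat.sqrt_le n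
  have hs2 := Nat.sqrt_lt_self (n := n) (by omega)
  have hs3 : n < (Nat.sqrt n + 1) * (Nat.sqrt n + 1) := Nat.lt_succ_sqrt n
  refine ⟨p, hp, by omega, ?_, ?_⟩
  · have h4 : 2 * p ≤ Nat.sqrt n := by omega
    calc 4 * p ^ 2 = (2 * p) * (2 * p) := by ring
      _ ≤ Nat.sqrt n * Nat.sqrt n := Nat.mul_le_mul h4 h4
      _ ≤ n := hs1
  · have h5 : Nat.sqrt n + 1 ≤ 8 * p := by omega
    calc n ≤ (Nat.sqrt n + 1) * (Nat.sqrt n + 1) := hs3.le
      _ ≤ (8 * p) * (8 * p) := Nat.mul_le_mul h5 h5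
      _ = 64 * p ^ 2 := by ring

end Pool.Agent.HazConv2
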